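import Pool.Agent.Lib_MP_7c0803_tor.KDefs
import Pool.Agent.Lib_MP_7c0803_tor.Par

/-!
# [KB-A] Klein bottle: colourings of `KB m k r` by levels

The `X`-vertex `(l, i)` has the edges `((l, i), 0)` (rung, colour `R l i`), `((l, i), 1)` (`Z1 l i`), `((l, i), 2)` (`Z2 l i`).
The `Y`-vertex `kf m k r 1 (l, i)`, which is `(l + 1, i)` for `l < m` and `(0, r - i)` for `l = m`, has the edges of slot `0`: its own rung (colour `R (l + 1) i`,
for `l = m` by `hc`), slot `1`: `((l, i), 1)`, slot `2`: `((l, i + 1), 2)` (`kf_two`, `kf_one`: `kf m k r 2 (l, i + 1) = kf m k r 1 (l, i)`).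

`kcol_P`: `(KB m k r).s (a, j) = (a, j + 1)` (`BG_s`), `(KB m k r).t (a, j) = ((kf m k r (j + 1)).symm (kf m k r j a), j + 1)` (`BG_t`).  Every `Y`-vertex is `kf m k r 1 (l, i)` (`kf m k r 1` is
a bijection): for the edge `(a, j)` let `(l, i) = (kf m k r 1).symm (kf m k r j a)`; `j = 0`: `t (a, 0) = ((l, i), 1)`, `a = kf m k r 1 (l, i)`; `j = 1`: `a = (l, i)`, `t (a, 1) = ((l, i + 1), 2)`;
`j = 2`: `a = (l, i + 1)`, `t (a, 2) = (kf m k r 1 (l, i), 0)`.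

`kcol_par`: the sum over `s` is `∑ l i, v3 (R l i) (Z1 l i) (Z2 l i)` (`Fintype.sum_prod_type`, `Fin.sum_univ_three`).  The sum over `t`: write it as a sum over `(b, j)`, `b = kf m k r j a`
(`Equiv.sum_comp` with the permutation `(a, j) ↦ (kf m k r j a, j)` of `A × Fin 3`), then over `b = kf m k r 1 (l, i)` (`Equiv.sum_comp`):
`∑ l i, v3 (R (l + 1) i) (Z1 l i) (Z2 l (i + 1))`.  `∑ l : Fin (m + 1)` is `∑ l ∈ range (m + 1)` (`Fin.sum_univ_eq_sum_range` or `Finset.sum_range`).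
-/

set_option autoImplicit false

open Finset Function

namespace Pool.Agent.PP

/-- three different colours -/
def D3 (x y z : Fin 3) : Prop := y ≠ x ∧ z ≠ y ∧ x ≠ z

instance (x y z : Fin 3) : Decidable (D3 x y z) := inferInstanceAs (Decidable (_ ∧ _))

/-- contribution of a vertex with the colours `x, y, z` to the parity -/
def v3 (x y z : Fin 3) : ZMod 2 := sg (y - x) + sg (z - y) + sg (x - z)

/-- the ring colours `Z1, Z2` fit between the rungs `R` below and `R'` above -/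
structure KLay {k : ℕ} (R R' Z1 Z2 : Fin (k + 1) → Fin 3) : Prop where
  X : ∀ i, D3 (R i) (Z1 i) (Z2 i)
  Y : ∀ i, D3 (R' i) (Z1 i) (Z2 (i + 1))

/-- contribution of a ring to the parity -/
def KPar {k : ℕ} (R R' Z1 Z2 : Fin (k + 1) → Fin 3) : ZMod 2 :=
  ∑ i, (v3 (R i) (Z1 i) (Z2 i) + v3 (R' i) (Z1 i) (Z2 (i + 1)))

/-- the colouring of `KB m k r` with the colours `R l`, `Z1 l`, `Z2 l` at the level `l` -/
def kcol {m k : ℕ} (R Z1 Z2 : ℕ → Fin (k + 1) → Fin 3) (p : (Fin (m + 1) × Fin (k + 1)) × Fin 3) : Fin 3 :=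
  if p.2 = 0 then R p.1.1 p.1.2 else if p.2 = 1 then Z1 p.1.1 p.1.2 else Z2 p.1.1 p.1.2

/-- proper colourings vertex by vertex -/
private theorem Ka_P_iff {m k : ℕ} (r : Fin (k + 1)) (c : (Fin (m + 1) × Fin (k + 1)) × Fin 3 → Fin 3) :
    (KB m k r).P c ↔ ∀ (l : Fin (m + 1)) (i : Fin (k + 1)), D3 (c ((l, i), 0)) (c ((l, i), 1)) (c ((l, i), 2)) ∧
      D3 (c (kf m k r 1 (l, i), 0)) (c ((l, i), 1)) (c ((l, i + 1), 2)) := by
  have h21 : ∀ (l : Fin (m + 1)) (i : Fin (k + 1)), kf m k r 2 (l, i + 1) = kf m k r 1 (l, i) := by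
    intro l i
    rw [kf_two, kf_one]
    by_cases h : l = Fin.last m
    · rw [if_pos h, if_pos h, add_sub_add_right_eq_sub]
    · rw [if_neg h, if_neg h, add_sub_cancel_right]
  have t0 : ∀ (l : Fin (m + 1)) (i : Fin (k + 1)),
      (KB m k r).t (kf m k r 1 (l, i), 0) = ((l, i), 1) := by
    intro l i
    show ((kf m k r (0 + 1)).symm (kf m k r 0 (kf m k r 1 (l, i))), (0 : Fin 3) + 1) = ((l, i), 1)
    rw [kf_zero, zero_add, Equiv.symm_apply_apply]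
  have t1 : ∀ (l : Fin (m + 1)) (i : Fin (k + 1)),
      (KB m k r).t ((l, i), 1) = ((l, i + 1), 2) := by
    intro l i
    show ((kf m k r (1 + 1)).symm (kf m k r 1 (l, i)), (1 : Fin 3) + 1) = ((l, i + 1), 2)
    have h11 : (1 : Fin 3) + 1 = 2 := rfl
    rw [h11, ← h21, Equiv.symm_apply_apply]
  have t2 : ∀ (l : Fin (m + 1)) (i : Fin (k + 1)),
      (KB m k r).t ((l, i + 1), 2) = (kf m k r 1 (l, i), 0) := by
    intro l i
    show ((kf m k r (2 + 1)).symm (kf m k r 2 (l, i + 1)), (2 : Fin 3) + 1) = (kf m k r 1 (l, i), 0)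
    have h11 : (2 : Fin 3) + 1 = 0 := rfl
    rw [h11, h21]
    refine congrArg (fun x => (x, (0 : Fin 3))) ?_
    rw [Equiv.symm_apply_eq, kf_zero]
  have s0 : ∀ a : Fin (m + 1) × Fin (k + 1), (KB m k r).s (a, 0) = (a, 1) := fun a => rfl
  have s1 : ∀ a : Fin (m + 1) × Fin (k + 1), (KB m k r).s (a, 1) = (a, 2) := fun a => rfl
  have s2 : ∀ a : Fin (m + 1) × Fin (k + 1), (KB m k r).s (a, 2) = (a, 0) := fun a => rfl
  constructor
  · intro h l i
    refine ⟨⟨?_, ?_, ?_⟩, ⟨?_, ?_, ?_⟩⟩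
    · have := (h ((l, i), 0)).1
      rwa [s0] at this
    · have := (h ((l, i), 1)).1
      rwa [s1] at this
    · have := (h ((l, i), 2)).1
      rwa [s2] at this
    · have := (h (kf m k r 1 (l, i), 0)).2
      rwa [t0] at this
    · have := (h ((l, i), 1)).2
      rwa [t1] at this
    · have := (h ((l, i + 1), 2)).2
      rwa [t2] at this
  · rintro h ⟨a, j⟩
    have hj : j = 0 ∨ j = 1 ∨ j = 2 := by
      fin_cases j
      · exact Or.inl rfl
      · exact Or.inr (Or.inl rfl)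
      · exact Or.inr (Or.inr rfl)
    rcases hj with rfl | rfl | rfl
    · refine ⟨?_, ?_⟩
      · rw [s0]
        exact (h a.1 a.2).1.1
      · obtain ⟨⟨l, i⟩, rfl⟩ := (kf m k r 1).surjective a
        rw [t0]
        exact (h l i).2.1
    · refine ⟨?_, ?_⟩
      · rw [s1]
        exact (h a.1 a.2).1.2.1
      · obtain ⟨l, i⟩ := a
        rw [t1]
        exact (h l i).2.2.1
    · refine ⟨?_, ?_⟩
      · rw [s2]
        exact (h a.1 a.2).1.2.2
      · obtain ⟨l, i⟩ := a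
        have h3 := (h l (i - 1)).2.2.2
        have h4 := t2 l (i - 1)
        rw [sub_add_cancel] at h3 h4
        rw [h4]
        exact h3

private theorem Ka_last {m k : ℕ} (r : Fin (k + 1)) (R Z1 Z2 : ℕ → Fin (k + 1) → Fin 3) (i : Fin (k + 1)) :
    kcol R Z1 Z2 (kf m k r 1 (Fin.last m, i), 0) = R 0 (r - i) := by
  rw [kf_one, if_pos rfl]
  rfl

private theorem Ka_lt {m k : ℕ} (r : Fin (k + 1)) (R Z1 Z2 : ℕ → Fin (k + 1) → Fin 3) (l : Fin (m + 1))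
    (h : l ≠ Fin.last m) (i : Fin (k + 1)) :
    kcol R Z1 Z2 (kf m k r 1 (l, i), 0) = R (l + 1) i := by
  rw [kf_one, if_neg h]
  show R ((l + 1 : Fin (m + 1)) : ℕ) i = R ((l : ℕ) + 1) i
  rw [Fin.val_add_one_of_lt (Fin.lt_last_iff_ne_last.2 h)]

theorem kcol_P {m k : ℕ} (r : Fin (k + 1)) (R Z1 Z2 : ℕ → Fin (k + 1) → Fin 3)
    (h : ∀ l ≤ m, KLay (R l) (R (l + 1)) (Z1 l) (Z2 l)) (hc : ∀ i, R (m + 1) i = R 0 (r - i)) :
    (KB m k r).P (kcol R Z1 Z2) := by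
  rw [Ka_P_iff]
  intro l i
  have hl := h l (Nat.le_of_lt_succ l.2)
  refine ⟨hl.X i, ?_⟩
  have h1 : kcol R Z1 Z2 (kf m k r 1 (l, i), 0) = R (l + 1) i := by
    by_cases h2 : l = Fin.last m
    · rw [h2, Ka_last, ← hc, Fin.val_last]
    · exact Ka_lt r R Z1 Z2 l h2 i
  rw [h1]
  exact hl.Y i

/-- the converse -/
theorem kcol_P' {m k : ℕ} (r : Fin (k + 1)) (R Z1 Z2 : ℕ → Fin (k + 1) → Fin 3) (h : (KB m k r).P (kcol R Z1 Z2)) :
    (∀ l < m, KLay (R l) (R (l + 1)) (Z1 l) (Z2 l)) ∧ KLay (R m) (fun i => R 0 (r - i)) (Z1 m) (Z2 m) := by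
  rw [Ka_P_iff] at h
  refine ⟨fun l hl => ⟨fun i => (h ⟨l, by omega⟩ i).1, fun i => ?_⟩,
    ⟨fun i => (h (Fin.last m) i).1, fun i => ?_⟩⟩
  · have h1 := (h ⟨l, by omega⟩ i).2
    rw [Ka_lt r R Z1 Z2 _ (fun h2 => by
      have h3 := congrArg Fin.val h2
      rw [Fin.val_last] at h3
      exact absurd h3 (by simpa using hl.ne))] at h1
    exact h1
  · have h1 := (h (Fin.last m) i).2
    rw [Ka_last] at h1
    exact h1

private lemma kcolPar_f2 (m k : ℕ) (r : Fin (k + 1)) (l : Fin (m + 1)) (i : Fin (k + 1)) :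
    (kf m k r 2).symm (kf m k r 1 (l, i)) = (l, i + 1) := by
  rw [Equiv.symm_apply_eq, kf_two, kf_one]
  by_cases h : l = Fin.last m
  · rw [if_pos h, if_pos h]
    refine Prod.ext rfl ?_
    show r - i = r + 1 - (i + 1)
    abel
  · rw [if_neg h, if_neg h]
    refine Prod.ext rfl ?_
    show i = i + 1 - 1
    abel

private lemma kcolPar_R {m k : ℕ} (r : Fin (k + 1)) (R : ℕ → Fin (k + 1) → Fin 3) (hc : ∀ i, R (m + 1) i = R 0 (r - i))
    (l : Fin (m + 1)) (i : Fin (k + 1)) :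
    R (kf m k r 1 (l, i)).1 (kf m k r 1 (l, i)).2 = R ((l : ℕ) + 1) i := by
  rw [kf_one]
  by_cases h : l = Fin.last m
  · rw [if_pos h, h]
    show R 0 (r - i) = R (m + 1) i
    rw [hc]
  · rw [if_neg h]
    show R ((l + 1 : Fin (m + 1)) : ℕ) i = R ((l : ℕ) + 1) i
    rw [Fin.val_add_one_of_lt (lt_of_le_of_ne (Fin.le_last l) h)]

private lemma kcolPar_s {m k : ℕ} (r : Fin (k + 1)) (R Z1 Z2 : ℕ → Fin (k + 1) → Fin 3) :
    ∑ e, sg (kcol R Z1 Z2 ((KB m k r).s e) - kcol R Z1 Z2 e)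
      = ∑ p : Fin (m + 1) × Fin (k + 1), v3 (R p.1 p.2) (Z1 p.1 p.2) (Z2 p.1 p.2) := by
  rw [Fintype.sum_prod_type]
  refine Finset.sum_congr rfl fun p _ => ?_
  rw [Fin.sum_univ_three]
  rfl

private lemma kcolPar_t {m k : ℕ} (r : Fin (k + 1)) (R Z1 Z2 : ℕ → Fin (k + 1) → Fin 3)
    (hc : ∀ i, R (m + 1) i = R 0 (r - i)) :
    ∑ e, sg (kcol R Z1 Z2 ((KB m k r).t e) - kcol R Z1 Z2 e)
      = ∑ p : Fin (m + 1) × Fin (k + 1), v3 (R ((p.1 : ℕ) + 1) p.2) (Z1 p.1 p.2) (Z2 p.1 (p.2 + 1)) := by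
  have key : ∀ j : Fin 3, ∑ a, sg (kcol R Z1 Z2 ((KB m k r).t (a, j)) - kcol R Z1 Z2 (a, j))
      = ∑ a, sg (kcol R Z1 Z2 ((kf m k r (j + 1)).symm (kf m k r 1 a), j + 1)
          - kcol R Z1 Z2 ((kf m k r j).symm (kf m k r 1 a), j)) := by
    intro j
    have h1 := Equiv.sum_comp (kf m k r j) (fun b => sg (kcol R Z1 Z2 ((kf m k r (j + 1)).symm b, j + 1)
          - kcol R Z1 Z2 ((kf m k r j).symm b, j)))
    have h2 := Equiv.sum_comp (kf m k r 1) (fun b => sg (kcol R Z1 Z2 ((kf m k r (j + 1)).symm b, j + 1)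
          - kcol R Z1 Z2 ((kf m k r j).symm b, j)))
    rw [h2, ← h1]
    refine Finset.sum_congr rfl fun a _ => ?_
    rw [Equiv.symm_apply_apply]
    rfl
  rw [Fintype.sum_prod_type_right]
  rw [Finset.sum_congr rfl (fun j _ => key j), Fin.sum_univ_three, ← Finset.sum_add_distrib, ← Finset.sum_add_distrib]
  refine Finset.sum_congr rfl fun p _ => ?_
  obtain ⟨l, i⟩ := p
  have e0 : (kf m k r 0).symm (kf m k r 1 (l, i)) = kf m k r 1 (l, i) := rfl
  have e1 : (kf m k r 1).symm (kf m k r 1 (l, i)) = (l, i) := Equiv.symm_apply_apply _ _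
  have e2 := kcolPar_f2 m k r l i
  have z1 : (0 : Fin 3) + 1 = 1 := rfl
  have z2 : (1 : Fin 3) + 1 = 2 := rfl
  have z3 : (2 : Fin 3) + 1 = 0 := rfl
  rw [z1, z2, z3, e0, e1, e2]
  show sg (Z1 l i - R (kf m k r 1 (l, i)).1 (kf m k r 1 (l, i)).2) + sg (Z2 l (i + 1) - Z1 l i)
    + sg (R (kf m k r 1 (l, i)).1 (kf m k r 1 (l, i)).2 - Z2 l (i + 1)) = _
  rw [kcolPar_R r R hc l i]
  rfl

theorem kcol_par {m k : ℕ} (r : Fin (k + 1)) (R Z1 Z2 : ℕ → Fin (k + 1) → Fin 3) (hc : ∀ i, R (m + 1) i = R 0 (r - i)) :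
    (KB m k r).par (kcol R Z1 Z2) = ∑ l ∈ range (m + 1), KPar (R l) (R (l + 1)) (Z1 l) (Z2 l) := by
  unfold CB.par
  rw [kcolPar_s, kcolPar_t r R Z1 Z2 hc, ← Finset.sum_add_distrib, Fintype.sum_prod_type, Finset.sum_range]
  rfl

end Pool.Agent.PP
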