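import Pool.Agent.Lib_MP_7c0803_kb.Ka

/-!
# [KB-B], [KB-C] Klein bottle: chains of rings

[KB-B] `KCh.one`: `S = fun l => if l = 0 then R else R'`, constant `Z1, Z2`.  `KCh.trans`: concatenate (`if l ≤ n then S l else S' (l - n)`, rings `if l < n then Z l else Z' (l - n)`;
`Finset.sum_range_add` or `sum_range_add_sum...`: split `range (n + n')`).
`npc_of_KCh`: take `S, Z1, Z2` of the chain with `m + 1` rings, change nothing: `kcol_P`, `kcol_par` (`hc` from `S (m + 1) i = R (r - i) = S 0 (r - i)`): a colouring of parity `1`.  The colouring by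
slots, `kcol (fun _ _ => 0) (fun _ _ => 1) (fun _ _ => 2)`, has parity `0`: `v3 0 1 2 + v3 0 1 2 = 0`.  So the parity is not constant (`not_PC_of` in `Lib_MP_7c0803_tor/Par.lean`).

[KB-C] `kch_A`: `Z1 i = if R i = 1 then 0 else 1`, `Z2 i = if R i = 2 then 0 else 2`.  `X`: `(0, 1, 2)`, `(1, 0, 2)`, `(2, 1, 0)` for `R i = 0, 1, 2`; `Y`: `R i = 1`: `(1, 0, 2)` (`R (i + 1) ≠ 2`);
`R i ≠ 1`, `R (i + 1) = 2`: `(2, 1, 0)`; else `(0, 1, 2)`.  Parity: `v3 (X i) = 1 + [R i = 1] + [R i = 2]`, `v3 (Y i) = 1 + [R i = 1] + [R (i + 1) = 2]` (in `ZMod 2`); the sums over `i` agree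
(`Equiv.sum_comp (Equiv.addRight 1)`), so the total is `0`.
`kch_B`: `Z1 i = if R i = 2 then 0 else 2`, `Z2 i = if R i = 1 then 0 else 1`.  `v3 (X i) = [R i = 1] + [R i = 2]`, `v3 (Y i) = [R i = 2] + [R (i + 1) = 1]`.
`kch_AB`: `kch_A`, then `kch_B` for the new row `R'` (`R' i = 2` implies `R (i + 1) = 2`, so `R' (i + 1) ≠ 1`), which gives `fun i => R (i + 1)`; induction on `t` (the hypothesis is invariant under shifts); `s` is `t` times `1`.
-/

set_option autoImplicit false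

open Finset Function

namespace Pool.Agent.PP

/-- `n` rings from the rungs `R` to the rungs `R'` with the parity `p` -/
def KCh {k : ℕ} (n : ℕ) (R R' : Fin (k + 1) → Fin 3) (p : ZMod 2) : Prop :=
  ∃ S Z1 Z2 : ℕ → Fin (k + 1) → Fin 3, S 0 = R ∧ S n = R' ∧ (∀ l < n, KLay (S l) (S (l + 1)) (Z1 l) (Z2 l)) ∧
    ∑ l ∈ range n, KPar (S l) (S (l + 1)) (Z1 l) (Z2 l) = p

theorem KCh.one {k : ℕ} {R R' Z1 Z2 : Fin (k + 1) → Fin 3} (h : KLay R R' Z1 Z2) : KCh 1 R R' (KPar R R' Z1 Z2) := by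
  refine ⟨fun l => if l = 0 then R else R', fun _ => Z1, fun _ => Z2, if_pos rfl, if_neg one_ne_zero, ?_, ?_⟩
  · intro l hl
    have h0 : l = 0 := by omega
    subst h0
    simpa using h
  · simp

theorem KCh.trans {k n n' : ℕ} {R R' R'' : Fin (k + 1) → Fin 3} {p p' : ZMod 2} (h : KCh n R R' p) (h' : KCh n' R' R'' p') :
    KCh (n + n') R R'' (p + p') := by
  obtain ⟨S, Z1, Z2, h0, hn, hl, hs⟩ := h
  obtain ⟨S', Z1', Z2', h0', hn', hl', hs'⟩ := h'
  have a1 : ∀ l, l ≤ n → (if l ≤ n then S l else S' (l - n)) = S l := fun l hl => if_pos hl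
  have a2 : ∀ l, (if n + l ≤ n then S (n + l) else S' (n + l - n)) = S' l := by
    intro l
    rcases Nat.eq_zero_or_pos l with h | h
    · subst h
      rw [if_pos (by omega), add_zero, hn, h0']
    · rw [if_neg (by omega), Nat.add_sub_cancel_left]
  have b1 : ∀ (Z Z' : ℕ → Fin (k + 1) → Fin 3) l, l < n → (if l < n then Z l else Z' (l - n)) = Z l :=
    fun Z Z' l hl => if_pos hl
  have b2 : ∀ (Z Z' : ℕ → Fin (k + 1) → Fin 3) l, (if n + l < n then Z (n + l) else Z' (n + l - n)) = Z' l := by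
    intro Z Z' l
    rw [if_neg (by omega), Nat.add_sub_cancel_left]
  refine ⟨fun l => if l ≤ n then S l else S' (l - n), fun l => if l < n then Z1 l else Z1' (l - n),
    fun l => if l < n then Z2 l else Z2' (l - n), ?_, ?_, ?_, ?_⟩
  · exact (a1 0 (Nat.zero_le n)).trans h0
  · exact (a2 n').trans hn'
  · intro l hln
    rcases lt_or_ge l n with h | h
    · have h1 := hl l h
      simp only
      rw [a1 l h.le, a1 (l + 1) h, b1 _ _ l h, b1 _ _ l h]
      exact h1
    · obtain ⟨l', rfl⟩ := Nat.exists_eq_add_of_le h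
      have h1 := hl' l' (by omega)
      simp only
      rw [a2 l', b2 _ _ l', b2 _ _ l', add_assoc, a2 (l' + 1)]
      exact h1
  · rw [Finset.sum_range_add]
    congr 1
    · rw [← hs]
      refine Finset.sum_congr rfl fun l hln => ?_
      have h := Finset.mem_range.1 hln
      simp only
      rw [a1 l h.le, a1 (l + 1) h, b1 _ _ l h, b1 _ _ l h]
    · rw [← hs']
      refine Finset.sum_congr rfl fun l' _ => ?_
      simp only
      rw [a2 l', b2 _ _ l', b2 _ _ l', add_assoc, a2 (l' + 1)]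

theorem npc_of_KCh {m k : ℕ} (r : Fin (k + 1)) (R : Fin (k + 1) → Fin 3) (h : KCh (m + 1) R (fun i => R (r - i)) 1) :
    ¬ (KB m k r).PC := by
  obtain ⟨S, Z1, Z2, h0, hn, hl, hs⟩ := h
  have hc : ∀ i, S (m + 1) i = S 0 (r - i) := by
    intro i
    rw [hn, h0]
  have hc' : ∀ i : Fin (k + 1), (fun (_ : ℕ) (_ : Fin (k + 1)) => (0 : Fin 3)) (m + 1) i =
      (fun (_ : ℕ) (_ : Fin (k + 1)) => (0 : Fin 3)) 0 (r - i) := fun _ => rfl
  refine not_PC_of (kcol S Z1 Z2) (kcol (fun _ _ => 0) (fun _ _ => 1) (fun _ _ => 2))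
    (kcol_P r S Z1 Z2 (fun l hlm => hl l (by omega)) hc)
    (kcol_P r _ _ _ (fun l _ => ⟨fun _ => by decide, fun _ => by decide⟩) hc') ?_
  rw [kcol_par r S Z1 Z2 hc, kcol_par r _ _ _ hc', hs]
  have h1 : ∑ l ∈ range (m + 1), KPar (k := k) ((fun (_ : ℕ) (_ : Fin (k + 1)) => (0 : Fin 3)) l)
      ((fun (_ : ℕ) (_ : Fin (k + 1)) => (0 : Fin 3)) (l + 1))
      ((fun (_ : ℕ) (_ : Fin (k + 1)) => (1 : Fin 3)) l)
      ((fun (_ : ℕ) (_ : Fin (k + 1)) => (2 : Fin 3)) l) = 0 := by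
    refine Finset.sum_eq_zero fun l _ => ?_
    unfold KPar
    refine Finset.sum_eq_zero fun i _ => ?_
    change v3 0 1 2 + v3 0 1 2 = 0
    decide
  rw [h1]
  decide

private lemma Kb_one' {k : ℕ} {R R' Z1 Z2 : Fin (k + 1) → Fin 3} (h : KLay R R' Z1 Z2) {p : ZMod 2}
    (hp : KPar R R' Z1 Z2 = p) : KCh 1 R R' p :=
  ⟨fun l => if l = 0 then R else R', fun _ => Z1, fun _ => Z2, rfl, rfl, fun l hl => by
    obtain rfl : l = 0 := by omega
    exact h, by
    rw [Finset.sum_range_one]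
    exact hp⟩

private lemma Kb_sum {k : ℕ} (f : Fin (k + 1) → ZMod 2) : ∑ i, (f i + f (i + 1)) = 0 := by
  rw [Finset.sum_add_distrib]
  have h : ∑ i, f (i + 1) = ∑ i, f i := Equiv.sum_comp (Equiv.addRight 1) f
  rw [h]
  exact CharTwo.add_self_eq_zero _

private lemma Kb_A : ∀ x y : Fin 3, (x = 1 → y ≠ 2) →
    D3 x (if x = 1 then 0 else 1) (if x = 2 then 0 else 2) ∧
    D3 (if x = 1 then 1 else if y = 2 then 2 else 0) (if x = 1 then 0 else 1) (if y = 2 then 0 else 2) ∧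
    v3 x (if x = 1 then 0 else 1) (if x = 2 then 0 else 2) +
      v3 (if x = 1 then 1 else if y = 2 then 2 else 0) (if x = 1 then 0 else 1) (if y = 2 then 0 else 2) =
      (if x = 2 then 1 else 0) + (if y = 2 then 1 else 0) := by decide

private lemma Kb_B : ∀ x y : Fin 3, (x = 2 → y ≠ 1) →
    D3 x (if x = 2 then 0 else 2) (if x = 1 then 0 else 1) ∧
    D3 (if x = 2 then 2 else if y = 1 then 1 else 0) (if x = 2 then 0 else 2) (if y = 1 then 0 else 1) ∧
    v3 x (if x = 2 then 0 else 2) (if x = 1 then 0 else 1) +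
      v3 (if x = 2 then 2 else if y = 1 then 1 else 0) (if x = 2 then 0 else 2) (if y = 1 then 0 else 1) =
      (if x = 1 then 1 else 0) + (if y = 1 then 1 else 0) := by decide

private lemma Kb_AB : ∀ x y z : Fin 3, (x = 1 → y ≠ 2) → (y = 1 → z ≠ 2) →
    ((if x = 1 then (1 : Fin 3) else if y = 2 then 2 else 0) = 2 → (if y = 1 then (1 : Fin 3) else if z = 2 then 2 else 0) ≠ 1) ∧
    (if (if x = 1 then (1 : Fin 3) else if y = 2 then 2 else 0) = 2 then (2 : Fin 3) else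
      if (if y = 1 then (1 : Fin 3) else if z = 2 then 2 else 0) = 1 then 1 else 0) = y := by decide

theorem kch_A {k : ℕ} (R : Fin (k + 1) → Fin 3) (h : ∀ i, R i = 1 → R (i + 1) ≠ 2) :
    KCh 1 R (fun i => if R i = 1 then 1 else if R (i + 1) = 2 then 2 else 0) 0 := by
  refine Kb_one' (Z1 := fun i => if R i = 1 then 0 else 1) (Z2 := fun i => if R i = 2 then 0 else 2)
    ⟨fun i => (Kb_A (R i) (R (i + 1)) (h i)).1, fun i => (Kb_A (R i) (R (i + 1)) (h i)).2.1⟩ ?_
  unfold KPar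
  rw [Finset.sum_congr rfl fun i _ => (Kb_A (R i) (R (i + 1)) (h i)).2.2]
  exact Kb_sum fun i => if R i = 2 then 1 else 0

theorem kch_B {k : ℕ} (R : Fin (k + 1) → Fin 3) (h : ∀ i, R i = 2 → R (i + 1) ≠ 1) :
    KCh 1 R (fun i => if R i = 2 then 2 else if R (i + 1) = 1 then 1 else 0) 0 := by
  refine Kb_one' (Z1 := fun i => if R i = 2 then 0 else 2) (Z2 := fun i => if R i = 1 then 0 else 1)
    ⟨fun i => (Kb_B (R i) (R (i + 1)) (h i)).1, fun i => (Kb_B (R i) (R (i + 1)) (h i)).2.1⟩ ?_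
  unfold KPar
  rw [Finset.sum_congr rfl fun i _ => (Kb_B (R i) (R (i + 1)) (h i)).2.2]
  exact Kb_sum fun i => if R i = 1 then 1 else 0

theorem kch_AB {k : ℕ} (R : Fin (k + 1) → Fin 3) (h : ∀ i, R i = 1 → R (i + 1) ≠ 2) (t : ℕ) :
    ∃ s : Fin (k + 1), KCh (2 * t) R (fun i => R (i + s)) 0 := by
  have two : ∀ R : Fin (k + 1) → Fin 3, (∀ i, R i = 1 → R (i + 1) ≠ 2) → KCh (1 + 1) R (fun i => R (i + 1)) 0 := by
    intro R h
    have h1 := kch_A R h
    have h2 := kch_B (fun i => if R i = 1 then 1 else if R (i + 1) = 2 then 2 else 0)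
      (fun i => (Kb_AB (R i) (R (i + 1)) (R (i + 1 + 1)) (h i) (h (i + 1))).1)
    have h3 := h1.trans h2
    rw [add_zero] at h3
    have e : (fun i => if (if R i = 1 then (1 : Fin 3) else if R (i + 1) = 2 then 2 else 0) = 2 then (2 : Fin 3) else
        if (if R (i + 1) = 1 then (1 : Fin 3) else if R (i + 1 + 1) = 2 then 2 else 0) = 1 then 1 else 0) =
        fun i => R (i + 1) := by
      funext i
      exact (Kb_AB (R i) (R (i + 1)) (R (i + 1 + 1)) (h i) (h (i + 1))).2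
    rw [← e]
    exact h3
  induction t with
  | zero =>
    refine ⟨0, fun _ => R, fun _ => R, fun _ => R, rfl, ?_, fun l hl => absurd hl (Nat.not_lt_zero l), rfl⟩
    funext i
    rw [add_zero]
  | succ t ih =>
    obtain ⟨s, hs⟩ := ih
    have h1 := hs.trans (two (fun i => R (i + s)) fun i hi => by
      have h2 := h (i + s) hi
      rwa [add_right_comm] at h2)
    rw [add_zero] at h1
    refine ⟨1 + s, ?_⟩
    have e : (fun i : Fin (k + 1) => R (i + (1 + s))) = fun i => R (i + 1 + s) := by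
      funext i
      rw [add_assoc]
    rw [e]
    exact h1

end Pool.Agent.PP
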