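import Pool.Agent.Lib_MP_7c0803_kb.Kb

/-!
# [KB-D], [KB-E] Klein bottle: colourings of parity one

`K = k + 1` positions.

[KB-D] `kch_even`.  `r = 2 - s` with the shift `s` of `kch_AB` for `R2`.  Rows (all other rungs have the colour `0`): `R0`: `1` at `1`, `2` at `2`; `R1`: `2` at `0`, `1` at `2`; `R2`: `2` at `0`, `1` at `1`.
Ring `R0 → R1`: `Z1`: `0 ↦ 1, 1 ↦ 2, 2 ↦ 0`, other `i ↦ 1`; `Z2`: `0 ↦ 2, 1 ↦ 0, 2 ↦ 1`, other `i ↦ 2`.  `X`: `(0,1,2), (1,2,0), (2,0,1)`, other `(0,1,2)`; `Y`: `(2,1,0), (0,2,1), (1,0,2)`, other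
`(0,1,2)`.  Parity: `v3 X + v3 Y` is `1 + 0` for `i = 0, 1, 2` and `1 + 1` otherwise: total `3 = 1`.
`R1 → R2`: `kch_B` (parity `0`).  Then `kch_AB`: `R2 (i + s)`, and `R2 (i + s) = R0 (r - i)`: `1` iff `i + s = 1`, `2` iff `i + s = 0`.
`0, 1, 2` are different in `Fin (k + 1)` as `k ≥ 2`; `i + 1 = 1 ↔ i = 0`, `i + 1 = 2 ↔ i = 1`; `i + 1 = 0 ↔ i = -1`, and `-1` is `2` or another `i`, in both cases `Z2 0 = 2` is what is needed.

[KB-E] `kch_odd`.  `r = -2 - s` with the shift `s` of `kch_AB` for `R3`.  Rows: `R0`: `1` at `1`, `2` at `-1` and `-2`; `R1`: `2` at `0` and `-2`, `1` at `-1`; `R2`: `2` at `-1` and `0`, `1` at `-2`; `R3`: `2` at `-1` and `0`, `1` at `-3`.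
Ring `R0 → R1`: `Z1`: `0 ↦ 1, -1 ↦ 0, -2 ↦ 0`, other `i ↦ 2`; `Z2`: `0 ↦ 2, 1 ↦ 0`, other `i ↦ 1`.  `X`: `0: (0,1,2)`, `1: (1,2,0)`, `-2: (2,0,1)`, `-1: (2,0,1)`, other `(0,2,1)`; `Y`: `0: (2,1,0)`,
`1: (0,2,1)`, `-2: (2,0,1)`, `-1: (1,0,2)`, other `(0,2,1)`.  Parity `1`.
Ring `R1 → R2`: `Z1`: `-2, -1, 0 ↦ 0`, other `i ↦ 2`; `Z2`: `-1 ↦ 2`, other `i ↦ 1`.  `X`: `-1: (1,0,2)`, `0: (2,0,1)`, `-2: (2,0,1)`, other `(0,2,1)`; `Y`: `-1: (2,0,1)`, `0: (2,0,1)`, `-2: (1,0,2)`, other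
`(0,2,1)`.  Parity `0`.
`R2 → R3`: `kch_B`.  Then `kch_AB`; `R3 (i + s) = R0 (r - i)`: with `j = i + s`, `r - i = -2 - j`: `1` iff `j = -3`, `2` iff `j = -1` or `j = 0`.
`0, 1, -1, -2` are different as `k ≥ 3` (and `-3` is different from `0, -1, -2`; it may be `1`).

A convenient way to compute the parities: `v3 X + v3 Y` as a function of `i` is `(if i = 0 then 1 else 0) + ...` for the special positions; `Finset.sum_add_distrib`, `Finset.sum_ite_eq'`.
-/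

set_option autoImplicit false

open Finset Function

namespace Pool.Agent.PP

theorem kch_even (k : ℕ) (hk : 2 ≤ k) (t : ℕ) :
    ∃ (r : Fin (k + 1)) (R : Fin (k + 1) → Fin 3), KCh (2 + 2 * t) R (fun i => R (r - i)) 1 := by
  obtain ⟨n, rfl⟩ : ∃ n, k = n + 2 := ⟨k - 2, by omega⟩
  have h01 : (0 : Fin (n + 2 + 1)) ≠ 1 := by simp
  have h12 : (1 : Fin (n + 2 + 1)) ≠ 1 + 1 := by
    intro h
    have h' : (1 : Fin (n + 2 + 1)) + 0 = 1 + 1 := by rw [add_zero]; exact h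
    exact h01 (add_left_cancel h')
  have h02 : (0 : Fin (n + 2 + 1)) ≠ 1 + 1 := by
    intro h
    have h2 := congrArg Fin.val h
    rw [Fin.val_add] at h2
    have h3 : (1 + 1) % (n + 2 + 1) = 1 + 1 := Nat.mod_eq_of_lt (by omega)
    simp [h3] at h2
  obtain ⟨R0, hR0⟩ : ∃ R : Fin (n + 2 + 1) → Fin 3, ∀ i, R i = if i = 1 then 1 else if i = 1 + 1 then 2 else 0 :=
    ⟨_, fun _ => rfl⟩
  obtain ⟨R1, hR1⟩ : ∃ R : Fin (n + 2 + 1) → Fin 3, ∀ i, R i = if i = 0 then 2 else if i = 1 + 1 then 1 else 0 :=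
    ⟨_, fun _ => rfl⟩
  obtain ⟨R2, hR2⟩ : ∃ R : Fin (n + 2 + 1) → Fin 3, ∀ i, R i = if i = 0 then 2 else if i = 1 then 1 else 0 :=
    ⟨_, fun _ => rfl⟩
  obtain ⟨Z1, hZ1⟩ : ∃ R : Fin (n + 2 + 1) → Fin 3, ∀ i, R i = if i = 1 then 2 else if i = 1 + 1 then 0 else 1 :=
    ⟨_, fun _ => rfl⟩
  obtain ⟨Z2, hZ2⟩ : ∃ R : Fin (n + 2 + 1) → Fin 3, ∀ i, R i = if i = 1 then 0 else if i = 1 + 1 then 1 else 2 :=
    ⟨_, fun _ => rfl⟩
  have hZ2' : ∀ i, Z2 (i + 1) = if i = 0 then 0 else if i = 1 then 1 else 2 := by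
    intro i
    rw [hZ2]
    simp only [add_eq_right, add_left_inj]
  have hcases : ∀ i : Fin (n + 2 + 1), i = 0 ∨ i = 1 ∨ i = 1 + 1 ∨ (i ≠ 0 ∧ i ≠ 1 ∧ i ≠ 1 + 1) := by
    intro i; tauto
  have hX : ∀ i, (R0 i = 0 ∧ Z1 i = 1 ∧ Z2 i = 2 ∧ R1 i = 2 ∧ Z2 (i + 1) = 0 ∧ i = 0) ∨
      (R0 i = 1 ∧ Z1 i = 2 ∧ Z2 i = 0 ∧ R1 i = 0 ∧ Z2 (i + 1) = 1 ∧ i = 1) ∨
      (R0 i = 2 ∧ Z1 i = 0 ∧ Z2 i = 1 ∧ R1 i = 1 ∧ Z2 (i + 1) = 2 ∧ i = 1 + 1) ∨
      (R0 i = 0 ∧ Z1 i = 1 ∧ Z2 i = 2 ∧ R1 i = 0 ∧ Z2 (i + 1) = 2 ∧ i ≠ 0 ∧ i ≠ 1 ∧ i ≠ 1 + 1) := by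
    intro i
    rw [hZ2', hR0, hR1, hZ1, hZ2]
    rcases hcases i with rfl | rfl | rfl | ⟨h1, h2, h3⟩
    · left; simp [h01, h02]
    · right; left; simp [h01.symm, h12]
    · right; right; left; simp only [h02.symm, h12.symm, if_false, if_true, and_self]
    · right; right; right; simp [h1, h2, h3]
  have hL : KLay R0 R1 Z1 Z2 := by
    constructor
    · intro i
      rcases hX i with h | h | h | h
      all_goals
        rw [h.1, h.2.1, h.2.2.1]; decide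
    · intro i
      rcases hX i with h | h | h | h
      all_goals
        rw [h.2.1, h.2.2.2.1, h.2.2.2.2.1]; decide
  have hP : KPar R0 R1 Z1 Z2 = 1 := by
    have h1 : ∀ i ∈ (univ : Finset (Fin (n + 2 + 1))), v3 (R0 i) (Z1 i) (Z2 i) + v3 (R1 i) (Z1 i) (Z2 (i + 1)) =
        (if i = 0 then 1 else 0) + (if i = 1 then 1 else 0) + (if i = 1 + 1 then 1 else 0) := by
      intro i _
      rcases hX i with ⟨h1, h2, h3, h4, h5, h6⟩ | ⟨h1, h2, h3, h4, h5, h6⟩ | ⟨h1, h2, h3, h4, h5, h6⟩ |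
        ⟨h1, h2, h3, h4, h5, h6, h7, h8⟩
      · rw [h1, h2, h3, h4, h5, h6, if_pos rfl, if_neg h01, if_neg h02]; decide
      · rw [h1, h2, h3, h4, h5, h6, if_pos rfl, if_neg h01.symm, if_neg h12]; decide
      · rw [h1, h2, h3, h4, h5, h6, if_pos rfl, if_neg h02.symm, if_neg h12.symm]; decide
      · rw [h1, h2, h3, h4, h5, if_neg h6, if_neg h7, if_neg h8]; decide
    unfold KPar
    rw [Finset.sum_congr rfl h1, Finset.sum_add_distrib, Finset.sum_add_distrib, Finset.sum_ite_eq',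
      Finset.sum_ite_eq', Finset.sum_ite_eq']
    simp only [Finset.mem_univ, if_true]
    decide
  have hA : KCh 1 R0 R1 1 := by
    have := KCh.one hL
    rwa [hP] at this
  have hB : KCh 1 R1 R2 0 := by
    have h := kch_B R1 (by
      intro i hi
      rw [hR1] at hi
      have hi0 : i = 0 := by
        by_contra hne
        rw [if_neg hne] at hi
        split_ifs at hi <;> exact absurd hi (by decide)
      rw [hR1, hi0, zero_add, if_neg h01.symm, if_neg h12]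
      decide)
    have hEq : (fun i => if R1 i = 2 then 2 else if R1 (i + 1) = 1 then 1 else 0) = R2 := by
      funext i
      rw [hR2]
      by_cases h0 : i = 0
      · rw [if_pos h0, if_pos]
        rw [hR1, if_pos h0]
      · rw [if_neg h0, if_neg]
        · congr 1
          rw [hR1]
          apply propext
          constructor
          · intro hh
            by_contra h1
            rw [if_neg (fun h => h1 (add_right_cancel h) : ¬ (i + 1 = 1 + 1))] at hh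
            split_ifs at hh <;> exact absurd hh (by decide)
          · intro hh
            rw [hh, if_neg h02.symm, if_pos rfl]
        · rw [hR1, if_neg h0]
          split_ifs <;> decide
    rwa [hEq] at h
  obtain ⟨s, hs⟩ := kch_AB R2 (by
    intro i hi
    rw [hR2] at hi
    have hi1 : i = 1 := by
      by_contra hne
      rw [if_neg hne] at hi
      split_ifs at hi <;> exact absurd hi (by decide)
    rw [hR2, hi1, if_neg h02.symm, if_neg h12.symm]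
    decide) t
  refine ⟨1 + 1 - s, R0, ?_⟩
  have hfin : (fun i => R2 (i + s)) = (fun i => R0 (1 + 1 - s - i)) := by
    funext i
    have e : 1 + 1 - s - i = 1 + 1 - (i + s) := by abel
    rw [e]
    generalize i + s = j
    rw [hR2, hR0]
    by_cases h0 : j = 0
    · rw [if_pos h0, h0, sub_zero, if_neg h12.symm, if_pos rfl]
    · rw [if_neg h0]
      by_cases h1 : j = 1
      · rw [if_pos h1, h1, add_sub_cancel_right, if_pos rfl]
      · have h3 : ¬ (1 + 1 - j = 1) := by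
          intro hh
          apply h1
          have : (1 : Fin (n + 2 + 1)) + 1 = 1 + j := sub_eq_iff_eq_add.mp hh
          exact (add_left_cancel this).symm
        have h4 : ¬ (1 + 1 - j = 1 + 1) := by
          intro hh
          exact h0 (sub_eq_self.mp hh)
        rw [if_neg h1, if_neg h3, if_neg h4]
  have hall := (hA.trans hB).trans hs
  rw [hfin] at hall
  have e1 : (1 : ZMod 2) + 0 + 0 = 1 := by decide
  rw [e1] at hall
  exact hall

/-- first row of the colouring for an odd number of rings -/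
def kcR0 (k : ℕ) (i : Fin (k + 1)) : Fin 3 := if i = 1 then 1 else if i = -1 ∨ i = -1 + -1 then 2 else 0

/-- second row -/
def kcR1 (k : ℕ) (i : Fin (k + 1)) : Fin 3 := if i = 0 ∨ i = -1 + -1 then 2 else if i = -1 then 1 else 0

/-- third row -/
def kcR2 (k : ℕ) (i : Fin (k + 1)) : Fin 3 := if i = -1 ∨ i = 0 then 2 else if i = -1 + -1 then 1 else 0

/-- fourth row -/
def kcR3 (k : ℕ) (i : Fin (k + 1)) : Fin 3 := if i = -1 ∨ i = 0 then 2 else if i = -1 + -1 + -1 then 1 else 0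

theorem kc_one_ne {k : ℕ} (hk : 3 ≤ k) :
    (1 : Fin (k + 1)) ≠ 0 ∧ (1 + 1 : Fin (k + 1)) ≠ 0 ∧ (1 + 1 + 1 : Fin (k + 1)) ≠ 0 := by
  obtain ⟨l, rfl⟩ : ∃ l, k = l + 3 := ⟨k - 3, by omega⟩
  have h1 : ((1 : Fin (l + 3 + 1)) : ℕ) = 1 := Fin.val_one _
  have h2 : ((1 + 1 : Fin (l + 3 + 1)) : ℕ) = 2 := by
    rw [Fin.val_add, h1]
    exact Nat.mod_eq_of_lt (by omega)
  have h3 : ((1 + 1 + 1 : Fin (l + 3 + 1)) : ℕ) = 3 := by
    rw [Fin.val_add, h1, h2]
    exact Nat.mod_eq_of_lt (by omega)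
  refine ⟨fun h => ?_, fun h => ?_, fun h => ?_⟩
  · rw [h] at h1; simp at h1
  · rw [h] at h2; simp at h2
  · rw [h] at h3; simp at h3

/-- all that is used about the positions `0, 1, -1, -2, -3` -/
theorem kc_facts {k : ℕ} (hk : 3 ≤ k) :
    (1 : Fin (k + 1)) ≠ 0 ∧ (-1 : Fin (k + 1)) ≠ 0 ∧ (-1 + -1 : Fin (k + 1)) ≠ 0 ∧ (1 : Fin (k + 1)) ≠ -1 ∧
      (1 : Fin (k + 1)) ≠ -1 + -1 ∧ (-1 : Fin (k + 1)) ≠ -1 + -1 ∧ (-1 + -1 + -1 : Fin (k + 1)) ≠ 0 ∧
      (-1 + -1 + -1 : Fin (k + 1)) ≠ -1 ∧ (-1 + -1 + -1 : Fin (k + 1)) ≠ -1 + -1 := by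
  obtain ⟨h1, h2, h3⟩ := kc_one_ne hk
  refine ⟨h1, ?_, ?_, ?_, ?_, ?_, ?_, ?_, ?_⟩ <;> intro h
  · apply h1
    have : (1 : Fin (k + 1)) = -(-1) := by abel
    rw [this, h]; abel
  · apply h2
    have : (1 + 1 : Fin (k + 1)) = -(-1 + -1) := by abel
    rw [this, h]; abel
  · apply h2
    calc (1 + 1 : Fin (k + 1)) = -1 + 1 := by rw [← h]
      _ = 0 := by abel
  · apply h3
    calc (1 + 1 + 1 : Fin (k + 1)) = 1 + (1 + 1) := by abel
      _ = -1 + -1 + (1 + 1) := by rw [← h]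
      _ = 0 := by abel
  · apply h1
    calc (1 : Fin (k + 1)) = -(-1 + -1) + -1 := by abel
      _ = -(-1) + -1 := by rw [← h]
      _ = 0 := by abel
  · apply h3
    have : (1 + 1 + 1 : Fin (k + 1)) = -(-1 + -1 + -1) := by abel
    rw [this, h]; abel
  · apply h2
    calc (1 + 1 : Fin (k + 1)) = -(-1 + -1 + -1) + -1 := by abel
      _ = -(-1) + -1 := by rw [h]
      _ = 0 := by abel
  · apply h1
    calc (1 : Fin (k + 1)) = -(-1 + -1 + -1) + (-1 + -1) := by abel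
      _ = -(-1 + -1) + (-1 + -1) := by rw [h]
      _ = 0 := by abel

theorem kc_add0 {k : ℕ} (i : Fin (k + 1)) : i + 1 = 0 ↔ i = -1 := eq_neg_iff_add_eq_zero.symm

theorem kc_add1 {k : ℕ} (i : Fin (k + 1)) : i + 1 = 1 ↔ i = 0 := by
  constructor
  · intro h
    exact add_eq_right.1 h
  · rintro rfl; abel

theorem kc_addm {k : ℕ} (i : Fin (k + 1)) : i + 1 = -1 ↔ i = -1 + -1 := by
  constructor
  · intro h
    calc i = i + 1 + -1 := by abel
      _ = -1 + -1 := by rw [h]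
  · rintro rfl; abel

theorem kc_addmm {k : ℕ} (i : Fin (k + 1)) : i + 1 = -1 + -1 ↔ i = -1 + -1 + -1 := by
  constructor
  · intro h
    calc i = i + 1 + -1 := by abel
      _ = -1 + -1 + -1 := by rw [h]
  · rintro rfl; abel

theorem kc_ring01 {k : ℕ} (hk : 3 ≤ k) : KCh 1 (kcR0 k) (kcR1 k) 1 := by
  obtain ⟨n1, n2, n3, n4, n5, n6, -, -, -⟩ := kc_facts hk
  set Z1 : Fin (k + 1) → Fin 3 := fun i => if i = 0 then 1 else if i = -1 ∨ i = -1 + -1 then 0 else 2 with hZ1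
  set Z2 : Fin (k + 1) → Fin 3 := fun i => if i = 0 then 2 else if i = 1 then 0 else 1 with hZ2
  have e0 := kc_add0 (k := k)
  have e1 := kc_add1 (k := k)
  have key : ∀ i, (D3 (kcR0 k i) (Z1 i) (Z2 i) ∧ D3 (kcR1 k i) (Z1 i) (Z2 (i + 1))) ∧
      v3 (kcR0 k i) (Z1 i) (Z2 i) + v3 (kcR1 k i) (Z1 i) (Z2 (i + 1)) =
        (if i = 0 then 1 else 0) + (if i = 1 then 1 else 0) + (if i = -1 then 1 else 0) := by
    intro i
    rcases eq_or_ne i 0 with rfl | h0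
    · simp [kcR0, kcR1, hZ1, hZ2, n1, n1.symm, n2.symm, n3.symm]; decide
    rcases eq_or_ne i 1 with rfl | h1
    · simp [kcR0, kcR1, hZ1, hZ2, n1, n4, n5, e0, e1]; decide
    rcases eq_or_ne i (-1) with rfl | h2
    · simp [kcR0, kcR1, hZ1, hZ2, n2, n4.symm, n6]; decide
    rcases eq_or_ne i (-1 + -1) with rfl | h3
    · simp [kcR0, kcR1, hZ1, hZ2, n2, n3, n4.symm, n5.symm, n6.symm]; decide
    · simp [kcR0, kcR1, hZ1, hZ2, h0, h1, h2, h3, e0, e1]; decide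
  have h' := KCh.one (k := k) ⟨fun i => (key i).1.1, fun i => (key i).1.2⟩
  have e : KPar (kcR0 k) (kcR1 k) Z1 Z2 = 1 := by
    unfold KPar
    rw [Finset.sum_congr rfl fun i _ => (key i).2, Finset.sum_add_distrib, Finset.sum_add_distrib]
    simp
    decide
  rwa [e] at h'

theorem kc_ring12 {k : ℕ} (hk : 3 ≤ k) : KCh 1 (kcR1 k) (kcR2 k) 0 := by
  obtain ⟨n1, n2, n3, n4, n5, n6, -, -, -⟩ := kc_facts hk
  set Z1 : Fin (k + 1) → Fin 3 := fun i => if i = 0 ∨ i = -1 ∨ i = -1 + -1 then 0 else 2 with hZ1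
  set Z2 : Fin (k + 1) → Fin 3 := fun i => if i = -1 then 2 else 1 with hZ2
  have em := kc_addm (k := k)
  have key : ∀ i, (D3 (kcR1 k i) (Z1 i) (Z2 i) ∧ D3 (kcR2 k i) (Z1 i) (Z2 (i + 1))) ∧
      v3 (kcR1 k i) (Z1 i) (Z2 i) + v3 (kcR2 k i) (Z1 i) (Z2 (i + 1)) =
        (if i = -1 then 1 else 0) + (if i = -1 + -1 then 1 else 0) := by
    intro i
    rcases eq_or_ne i 0 with rfl | h0
    · simp [kcR1, kcR2, hZ1, hZ2, n2.symm, n3.symm, n4]; decide
    rcases eq_or_ne i (-1) with rfl | h2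
    · simp [kcR1, kcR2, hZ1, hZ2, n2, n2.symm, n6]; decide
    rcases eq_or_ne i (-1 + -1) with rfl | h3
    · simp [kcR1, kcR2, hZ1, hZ2, n3, n6.symm]; decide
    · simp [kcR1, kcR2, hZ1, hZ2, h0, h2, h3, em]; decide
  have h' := KCh.one (k := k) ⟨fun i => (key i).1.1, fun i => (key i).1.2⟩
  have e : KPar (kcR1 k) (kcR2 k) Z1 Z2 = 0 := by
    unfold KPar
    rw [Finset.sum_congr rfl fun i _ => (key i).2, Finset.sum_add_distrib]
    simp
    decide
  rwa [e] at h'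

theorem kc_ring23 {k : ℕ} (hk : 3 ≤ k) : KCh 1 (kcR2 k) (kcR3 k) 0 := by
  obtain ⟨-, -, n3, -, -, n6, n7, n8, n9⟩ := kc_facts hk
  have h2 : ∀ i, kcR2 k i = 2 ↔ (i = -1 ∨ i = 0) := by
    intro i
    unfold kcR2
    split_ifs with h h' <;> simp [h]
  have h1 : ∀ i, kcR2 k i = 1 ↔ i = -1 + -1 := by
    intro i
    unfold kcR2
    split_ifs with h h'
    · rcases h with rfl | rfl <;> simp [n6, n3.symm]
    · simp [h']
    · simp [h']
  have h := kch_B (kcR2 k) (fun i hi hi' => by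
    rw [h2] at hi
    rw [h1, kc_addmm] at hi'
    rcases hi with rfl | rfl
    · exact n8 hi'.symm
    · exact n7 hi'.symm)
  have e : (fun i => if kcR2 k i = 2 then 2 else if kcR2 k (i + 1) = 1 then 1 else 0) = kcR3 k := by
    funext i
    simp only [h2, h1, kc_addmm, kcR3]
  rwa [e] at h

theorem kch_odd (k : ℕ) (hk : 3 ≤ k) (t : ℕ) :
    ∃ (r : Fin (k + 1)) (R : Fin (k + 1) → Fin 3), KCh (3 + 2 * t) R (fun i => R (r - i)) 1 := by
  obtain ⟨n1, n2, n3, n4, n5, n6, n7, n8, n9⟩ := kc_facts hk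
  obtain ⟨s, hs⟩ := kch_AB (kcR3 k) (fun i hi hi' => by
    have h1 : i = -1 + -1 + -1 := by
      by_contra h
      unfold kcR3 at hi
      rw [if_neg h] at hi
      split_ifs at hi <;> simp at hi
    subst h1
    have h2 : (-1 + -1 + -1 + 1 : Fin (k + 1)) = -1 + -1 := by abel
    rw [h2] at hi'
    simp [kcR3, n6.symm, n3, n9.symm] at hi') t
  refine ⟨-1 + -1 - s, kcR0 k, ?_⟩
  have e : (fun i => kcR0 k (-1 + -1 - s - i)) = fun i => kcR3 k (i + s) := by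
    funext i
    have a1 : (-1 + -1 - s - i = 1) ↔ i + s = -1 + -1 + -1 := by
      constructor <;> intro h
      · calc i + s = -1 + -1 - (-1 + -1 - s - i) := by abel
          _ = -1 + -1 + -1 := by rw [h]; abel
      · calc -1 + -1 - s - i = -1 + -1 - (i + s) := by abel
          _ = 1 := by rw [h]; abel
    have a2 : (-1 + -1 - s - i = -1) ↔ i + s = -1 := by
      constructor <;> intro h
      · calc i + s = -1 + -1 - (-1 + -1 - s - i) := by abel
          _ = -1 := by rw [h]; abel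
      · calc -1 + -1 - s - i = -1 + -1 - (i + s) := by abel
          _ = -1 := by rw [h]; abel
    have a3 : (-1 + -1 - s - i = -1 + -1) ↔ i + s = 0 := by
      constructor <;> intro h
      · calc i + s = -1 + -1 - (-1 + -1 - s - i) := by abel
          _ = 0 := by rw [h]; abel
      · calc -1 + -1 - s - i = -1 + -1 - (i + s) := by abel
          _ = -1 + -1 := by rw [h]; abel
    simp only [kcR0, kcR3, a1, a2, a3]
    by_cases h : i + s = -1 + -1 + -1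
    · rw [h]; simp [n7, n8]
    · simp [h]
  rw [e]
  have h := (((kc_ring01 hk).trans (kc_ring12 hk)).trans (kc_ring23 hk)).trans hs
  have e1 : 1 + 1 + 1 + 2 * t = 3 + 2 * t := by ring
  have e2 : (1 + 0 + 0 + 0 : ZMod 2) = 1 := by decide
  rwa [e1, e2] at h

end Pool.Agent.PP
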