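import Pool.Agent.Lib_MP_7c0803_kb.Kc
import Pool.Agent.Lib_MP_7c0803_tor.KRot

/-!
# Klein bottle: the parity is constant only if there are three positions and an odd number of levels
-/

set_option autoImplicit false

open Finset Function

namespace Pool.Agent.PP

theorem npc_kb (m k : ℕ) (hm : 2 ≤ m) (hk : 2 ≤ k) (r : Fin (k + 1)) (h : m % 2 = 1 ∨ 3 ≤ k) : ¬ (KB m k r).PC := by
  have key : ∀ r' : Fin (k + 1), ¬ (KB m k r').PC → ¬ (KB m k r).PC := by
    intro r' h1 h2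
    obtain ⟨i⟩ := kb_all m k r r'
    exact h1 (i.PC.1 h2)
  by_cases h2 : m % 2 = 1
  · obtain ⟨t, ht⟩ : ∃ t, m + 1 = 2 + 2 * t := ⟨(m - 1) / 2, by omega⟩
    obtain ⟨r', R, h3⟩ := kch_even k hk t
    rw [← ht] at h3
    exact key r' (npc_of_KCh r' R h3)
  · obtain ⟨t, ht⟩ : ∃ t, m + 1 = 3 + 2 * t := ⟨(m - 2) / 2, by omega⟩
    obtain ⟨r', R, h3⟩ := kch_odd k (by omega) t
    rw [← ht] at h3
    exact key r' (npc_of_KCh r' R h3)

end Pool.Agent.PP
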