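import Pool.Agent.Lib_MP_7c0803_hon.N3

/-!
# [KB-G] Paths of layers with rainbow rows

`krow r l t` is the row below the layer `l t`: `r` for `t = 0`, the row `l (t - 1) 2` for `t > 0`.  `KPt n r l`: `l 0, ..., l (n - 1)` is a path of layers over the row `r`.

`path_con` for `n ≥ 4`, `r` injective: any two paths over `r` with the same top row are connected by steps with a common colour class.  Induction on `n`.  `n = 4`: `blk_con` (`Lib_MP_7c0803_hon/N3.lean`),
lifted by `x ↦ fun t => if h : t < 4 then x ⟨t, h⟩ else l t` (entries with `t ≥ 4` do not matter in the relation; the first and the last step between `l` and its image have all classes in common).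
`n + 1`, `n ≥ 4`: all rows of a path over an injective row are injective (`lay_iff`, `lay_inj`).  By `blk_ex` there is a block `b` over `r` with `b 0 = l' 0`, `b 3 2 = l 3 2`; replace the layers `0, ..., 3`
of `l` by `b` (`blk_con`, lifted by `x ↦ fun t => if h : t < 4 then x ⟨t, h⟩ else l t`; the layer `4` fits since the row `3` is the same).  So `l 0 = l' 0` may be assumed.  Then the induction hypothesis for
`fun t => l (t + 1)`, `fun t => l' (t + 1)` over the row `l' 0 2`, lifted by `x ↦ fun t => if t = 0 then l' 0 else x (t - 1)`.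
The lifts: a function `F` with `R a b → EqvGen R' (F a) (F b)` gives `EqvGen R a b → EqvGen R' (F a) (F b)` (induction on `EqvGen`).
-/

set_option autoImplicit false

open Finset Function

namespace Pool.Agent.PP

/-- the row below the layer `l t` -/
def krow (r : ZMod 3 → Fin 3) (l : ℕ → Fin 3 → ZMod 3 → Fin 3) (t : ℕ) : ZMod 3 → Fin 3 := if t = 0 then r else l (t - 1) 2

/-- a path of `n` layers over the row `r` -/
def KPt (n : ℕ) (r : ZMod 3 → Fin 3) (l : ℕ → Fin 3 → ZMod 3 → Fin 3) : Prop := ∀ t < n, LOK (krow r l t) (l t)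

/-- one step between paths of `n + 1` layers over `r` with the top row `e` -/
def KPr (n : ℕ) (r e : ZMod 3 → Fin 3) (l l' : ℕ → Fin 3 → ZMod 3 → Fin 3) : Prop :=
  (KPt (n + 1) r l ∧ l n 2 = e) ∧ (KPt (n + 1) r l' ∧ l' n 2 = e) ∧ ∃ k, ∀ t ≤ n, ∀ i a, l t i a = k ↔ l' t i a = k

theorem path_inj (n : ℕ) (r : ZMod 3 → Fin 3) (hr : Injective r) (l : ℕ → Fin 3 → ZMod 3 → Fin 3) (h : KPt n r l) (t : ℕ) (ht : t < n) :
    Injective (l t 2) := by
  induction t with
  | zero =>
    have h0 := h 0 ht
    simp only [krow, if_true] at h0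
    obtain ⟨w, hw⟩ := (lay_iff r hr _).1 h0
    rw [hw]
    exact lay_inj r hr w
  | succ t ih =>
    have h1 := h (t + 1) ht
    have e : krow r l (t + 1) = l t 2 := by simp [krow]
    rw [e] at h1
    have i1 := ih (by omega)
    obtain ⟨w, hw⟩ := (lay_iff _ i1 _).1 h1
    rw [hw]
    exact lay_inj _ i1 w

/-- lifting of `EqvGen` along a map -/
private theorem Kp_lift {α β : Type*} {R : α → α → Prop} {R' : β → β → Prop} (F : α → β)
    (h : ∀ a b, R a b → Relation.EqvGen R' (F a) (F b)) {a b : α} (hab : Relation.EqvGen R a b) :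
    Relation.EqvGen R' (F a) (F b) := by
  induction hab with
  | rel a b hr => exact h a b hr
  | refl a => exact Relation.EqvGen.refl _
  | symm a b _ ih => exact ih.symm
  | trans a b c _ _ ih1 ih2 => exact ih1.trans _ _ _ ih2

/-- the first four layers of `l` replaced by the block `b` -/
private def Kp_rep (l : ℕ → Fin 3 → ZMod 3 → Fin 3) (b : Fin 4 → Fin 3 → ZMod 3 → Fin 3) : ℕ → Fin 3 → ZMod 3 → Fin 3 :=
  fun t => if h : t < 4 then b ⟨t, h⟩ else l t

private theorem Kp_rep_self (l : ℕ → Fin 3 → ZMod 3 → Fin 3) : Kp_rep l (fun t => l t.val) = l := by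
  funext t
  unfold Kp_rep
  split <;> rfl

private theorem Kp_blk (n : ℕ) (hn : 3 ≤ n) (r : ZMod 3 → Fin 3) (l : ℕ → Fin 3 → ZMod 3 → Fin 3) (h : KPt (n + 1) r l) :
    Blk r (fun t => l t.val) := by
  refine ⟨?_, ?_, ?_, ?_⟩
  · have := h 0 (by omega)
    simpa [krow] using this
  · have := h 1 (by omega)
    simpa [krow] using this
  · have := h 2 (by omega)
    simpa [krow] using this
  · have := h 3 (by omega)
    simpa [krow] using this

private theorem Kp_rep_path (n : ℕ) (hn : 3 ≤ n) (r : ZMod 3 → Fin 3) (l : ℕ → Fin 3 → ZMod 3 → Fin 3) (h : KPt (n + 1) r l)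
    (b : Fin 4 → Fin 3 → ZMod 3 → Fin 3) (hb : Blk r b) (hbl : b 3 2 = l 3 2) :
    KPt (n + 1) r (Kp_rep l b) ∧ Kp_rep l b n 2 = l n 2 := by
  have e0 : Kp_rep l b 0 = b 0 := rfl
  have e1 : Kp_rep l b 1 = b 1 := rfl
  have e2 : Kp_rep l b 2 = b 2 := rfl
  have e3 : Kp_rep l b 3 = b 3 := rfl
  have e4 : ∀ t, 4 ≤ t → Kp_rep l b t = l t := by
    intro t ht
    unfold Kp_rep
    rw [dif_neg (by omega)]
  constructor
  · intro t ht
    obtain ⟨b0, b1, b2, b3⟩ := hb
    rcases t with _ | _ | _ | _ | _ | t
    · simpa [krow, e0] using b0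
    · simpa [krow, e0, e1] using b1
    · simpa [krow, e1, e2] using b2
    · simpa [krow, e2, e3] using b3
    · have := h 4 ht
      rw [e4 4 le_rfl]
      have e : krow r (Kp_rep l b) 4 = krow r l 4 := by simp [krow, e3, hbl]
      rw [e]
      exact this
    · have := h (t + 5) ht
      rw [e4 (t + 5) (by omega)]
      have e : krow r (Kp_rep l b) (t + 5) = krow r l (t + 5) := by
        simp only [krow]
        rw [if_neg (by omega), if_neg (by omega), show t + 5 - 1 = t + 4 by omega, e4 (t + 4) (by omega)]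
      rw [e]
      exact this
  · rcases Nat.lt_or_ge n 4 with h4 | h4
    · have : n = 3 := by omega
      subst this
      rw [e3, hbl]
    · rw [e4 n h4]

/-- two blocks with the same top row can be exchanged -/
private theorem Kp_step (n : ℕ) (hn : 3 ≤ n) (r : ZMod 3 → Fin 3) (hr : Injective r) (l : ℕ → Fin 3 → ZMod 3 → Fin 3) (h : KPt (n + 1) r l)
    (b : Fin 4 → Fin 3 → ZMod 3 → Fin 3) (hb : Blk r b) (hbl : b 3 2 = l 3 2) :
    Relation.EqvGen (KPr n r (l n 2)) l (Kp_rep l b) := by
  have h0 := Kp_blk n hn r l h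
  have h1 := blk_con r hr (fun t => l t.val) b h0 hb hbl
  have h2 := Kp_lift (R' := KPr n r (l n 2)) (Kp_rep l) ?_ h1
  · rwa [Kp_rep_self] at h2
  · rintro x y ⟨⟨hx, hx'⟩, ⟨hy, hy'⟩, k, hk⟩
    refine Relation.EqvGen.rel _ _ ⟨Kp_rep_path n hn r l h x hx hx', Kp_rep_path n hn r l h y hy hy', k, ?_⟩
    intro t _ i a
    unfold Kp_rep
    split
    · exact hk _ i a
    · exact Iff.rfl

theorem path_con (n : ℕ) (hn : 3 ≤ n) (r : ZMod 3 → Fin 3) (hr : Injective r) (l l' : ℕ → Fin 3 → ZMod 3 → Fin 3)
    (h : KPt (n + 1) r l) (h' : KPt (n + 1) r l') (he : l' n 2 = l n 2) : Relation.EqvGen (KPr n r (l n 2)) l l' := by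
  induction n, hn using Nat.le_induction generalizing r l l' with
  | base =>
    have hb := Kp_blk 3 le_rfl r l' h'
    have h1 := Kp_step 3 le_rfl r hr l h (fun t => l' t.val) hb he
    refine h1.trans _ _ _ (Relation.EqvGen.rel _ _ ⟨Kp_rep_path 3 le_rfl r l h _ hb he, ⟨h', he⟩, 0, ?_⟩)
    intro t ht i a
    have : Kp_rep l (fun t => l' t.val) t = l' t := by
      unfold Kp_rep
      rw [dif_pos (by omega)]
    rw [this]
  | succ n hn ih =>
    have i3 : Injective (l 3 2) := path_inj (n + 1 + 1) r hr l h 3 (by omega)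
    have h00 : LOK r (l' 0) := by
      have := h' 0 (by omega)
      simpa [krow] using this
    obtain ⟨b, hb, hb0, hb3⟩ := blk_ex r (l 3 2) hr i3 (l' 0) h00
    have h1 := Kp_step (n + 1) (by omega) r hr l h b hb hb3
    obtain ⟨hm, hme⟩ := Kp_rep_path (n + 1) (by omega) r l h b hb hb3
    have hm0 : Kp_rep l b 0 = l' 0 := hb0
    set m := Kp_rep l b with hmdef
    refine h1.trans _ _ _ ?_
    have i0 : Injective (l' 0 2) := path_inj (n + 1 + 1) r hr l' h' 0 (by omega)
    have hsh : ∀ q : ℕ → Fin 3 → ZMod 3 → Fin 3, KPt (n + 1 + 1) r q → q 0 = l' 0 → KPt (n + 1) (l' 0 2) (fun t => q (t + 1)) := by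
      intro q hq hq0 t ht
      have := hq (t + 1) (by omega)
      have e : krow (l' 0 2) (fun t => q (t + 1)) t = krow r q (t + 1) := by
        rcases t with _ | t
        · simp [krow, hq0]
        · simp [krow]
      rw [e]
      exact this
    have h2 := ih (l' 0 2) i0 (fun t => m (t + 1)) (fun t => l' (t + 1)) (hsh m hm hm0) (hsh l' h' rfl) (by
      show l' (n + 1) 2 = m (n + 1) 2
      rw [he, hme])
    have h3 := Kp_lift (R' := KPr (n + 1) r (l (n + 1) 2)) (fun (x : ℕ → Fin 3 → ZMod 3 → Fin 3) (t : ℕ) => if t = 0 then l' 0 else x (t - 1)) ?_ h2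
    · have e1 : (fun t : ℕ => if t = 0 then l' 0 else (fun t => m (t + 1)) (t - 1)) = m := by
        funext t
        rcases t with _ | t
        · simp [hm0]
        · simp
      have e2 : (fun t : ℕ => if t = 0 then l' 0 else (fun t => l' (t + 1)) (t - 1)) = l' := by
        funext t
        rcases t with _ | t
        · simp
        · simp
      rw [e1, e2] at h3
      exact h3
    · have hup : ∀ x : ℕ → Fin 3 → ZMod 3 → Fin 3, KPt (n + 1) (l' 0 2) x ∧ x n 2 = m (n + 1) 2 →
          KPt (n + 1 + 1) r (fun t => if t = 0 then l' 0 else x (t - 1)) ∧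
          (fun t => if t = 0 then l' 0 else x (t - 1)) (n + 1) 2 = l (n + 1) 2 := by
        rintro x ⟨hx, hxe⟩
        refine ⟨?_, ?_⟩
        · intro t ht
          rcases t with _ | t
          · simpa [krow] using h00
          · have := hx t (by omega)
            have e : krow r (fun t => if t = 0 then l' 0 else x (t - 1)) (t + 1) = krow (l' 0 2) x t := by
              rcases t with _ | t
              · simp [krow]
              · simp [krow]
            rw [e]
            simpa using this
        · simp only [Nat.add_eq_zero_iff, one_ne_zero, and_false, if_false, Nat.add_sub_cancel]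
          rw [hxe, hme]
      rintro x y ⟨hx, hy, k, hk⟩
      refine Relation.EqvGen.rel _ _ ⟨hup x hx, hup y hy, k, ?_⟩
      intro t ht i a
      rcases t with _ | t
      · simp
      · simpa using hk t (by omega) i a

end Pool.Agent.PP
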