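import Pool.Agent.Lib_MP_7c0803_kb.Kp
import Pool.Agent.Lib_MP_7c0803_kb.Ka
import Pool.Agent.Lib_MP_7c0803_hon.N2

/-!
# [KB-F], [KB-H], [KB-I], [KB-J] The Klein bottle with three positions: closed sequences of layers

`KCl m l`: `l 0, ..., l m` is a path of layers, closed by the reflection `a ↦ -a` of the last row.

[KB-F] `con_of_kcl`.  The layer `t` is the level `m - t` of `KB m 2 0`, the place `a` is the position `-a` (`ZMod 3 = Fin 3`), slot `i` is slot `i + 1` (so slot `2` is the rung).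
For `l` let `Ψ l ((v, p), j) = l (m - v) (j - 1) (-p)` (`j - 1` in `Fin 3`); for a colouring `c` let `Φ c t i a = c ((m - t, -a), i + 1)` (`m - t` as an element of `Fin (m + 1)`).  `Ψ (Φ c) = c`.
`(KB m 2 0).P (Ψ l)` iff `KCl m l` (only the direction from `KCl` is needed for `Ψ`, and from `P` for `Φ`): `Ψ l = kcol R Z1 Z2` with `R v p = l (m - v) 2 (-p)`, `Z1 v p = l (m - v) 0 (-p)`,
`Z2 v p = l (m - v) 1 (-p)`, `R (m + 1) p = R 0 (-p)`, and `kcol_P`, `kcol_P'`: the ring between the levels `v` and `v + 1` is the layer `t = m - v` over the row `t - 1` (level `v + 1`); for `v = m` the row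
below the layer `0` is `a ↦ l m 2 (-a)`.  `LOK r l`: `l 0 a ≠ l 1 (a - 1)` etc. is the `Y`-vertex at the position `p = -a` (`a - 1` is the position `p + 1`).
A common class of `l, l'` is a common class of `Ψ l, Ψ l'`, so `KKE m l l'` gives `(KB m 2 0).KE (Ψ l) (Ψ l')` (`EqvGen` induction).

[KB-H] `kcl_rainbow`.  (1) For a permutation `π` of the colours: `KKE m l (π ∘ l)`: `N2_dec4` (`Lib_MP_7c0803_hon/N2.lean`): there is `ρ` with a fixed point and `π i = ρ i` for some `i`; `l` and `ρ ∘ l` have the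
class of the fixed point in common, `ρ ∘ l` and `π ∘ l` the class `π i`.  (2) `ρ0 a = l m 2 (-a)` is bijective, so is `ρ0'` of `l'`; choose `π ∘ ρ0 = ρ0'` (`Equiv.ofBijective`) and replace `l` by
`π ∘ l`; now both are paths of `m + 1` layers over `ρ0'` with the same top row: `path_con`; a path over `ρ0'` with top row `l' m 2` is closed, so `KPr m ρ0' _ x y` implies `KCl m x`, `KCl m y`, `KRl m x y`.

[KB-I] `kcl_cnt`: for `LOK r l` every colour occurs equally often in `r` and `l 2` (as `row_cnt` in `N2.lean`: `∑ a, ([l 0 a = k] + [l 1 (a - 1) = k] + [r a = k]) = 3 = ∑ a, ([l 0 a = k] + [l 1 a = k] + [l 2 a = k])`).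
`kcl_cases`: so the last row is injective or misses a colour, and then all rows miss it (induction on `t`).
`kcl_miss` as `miss_ke` in `N2.lean`: `f t i a = k` if `l t i a = k`, otherwise `k'` if `i = 2`, `k''` if `i ≠ 2` (`N2_F`); then the colouring by slots with a permutation of the colours, then (1) of [KB-H]
for the colourings by slots (or directly as in `N2.lean`).

[KB-J] `kcl_link` (`m` even).  `f`: slot `2`: `1, 0, 0` at the places `0, 1, 2`; slot `0`: `0, 1, 1`; slot `1`: `2, 2, 2`.  `g`: even `t`: slot `2`: `1, 0, 2`; slot `0`: `2, 1, 1`; slot `1`: `0, 2, 0`;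
odd `t`: slot `2`: `1, 2, 0`; slot `0`: `0, 1, 1`; slot `1`: `2, 0, 2`.  Common class `1`.  `decide` for the two parities; the row below the layer `0` of `g` is `a ↦ g m 2 (-a)`, which is `1, 2, 0`.
-/

set_option autoImplicit false

open Finset Function

namespace Pool.Agent.PP

/-- closed sequences of `m + 1` layers -/
def KCl (m : ℕ) (l : ℕ → Fin 3 → ZMod 3 → Fin 3) : Prop := LOK (fun a => l m 2 (-a)) (l 0) ∧ ∀ t < m, LOK (l t 2) (l (t + 1))

/-- a common colour class -/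
def KRl (m : ℕ) (l l' : ℕ → Fin 3 → ZMod 3 → Fin 3) : Prop := ∃ k, ∀ t ≤ m, ∀ i a, l t i a = k ↔ l' t i a = k

/-- Kempe equivalence of closed sequences -/
def KKE (m : ℕ) (l l' : ℕ → Fin 3 → ZMod 3 → Fin 3) : Prop :=
  Relation.EqvGen (fun l l' => KCl m l ∧ KCl m l' ∧ KRl m l l') l l'

private def KQ_z (p : Fin (2 + 1)) : ZMod 3 := p

private def KQ_w (a : ZMod 3) : Fin (2 + 1) := a

private lemma KQ_zw (a : ZMod 3) : KQ_z (KQ_w a) = a := rfl

private lemma KQ_wz (p : Fin (2 + 1)) : KQ_w (KQ_z p) = p := rfl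

private lemma KQ_z_succ (p : Fin (2 + 1)) : -KQ_z (p + 1) = -KQ_z p - 1 := by
  revert p
  decide

private lemma KQ_z_neg (p : Fin (2 + 1)) : KQ_z (0 - p) = -KQ_z p := by
  revert p
  decide

/-- a layer over a row in the notation of `KLay` -/
private lemma KQ_lok (r : ZMod 3 → Fin 3) (L : Fin 3 → ZMod 3 → Fin 3) :
    LOK r L ↔ KLay (k := 2) (fun p => L 2 (-KQ_z p)) (fun p => r (-KQ_z p)) (fun p => L 0 (-KQ_z p))
      (fun p => L 1 (-KQ_z p)) := by
  constructor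
  · rintro ⟨h1, h2⟩
    refine ⟨fun p => ⟨?_, ?_, ?_⟩, fun p => ⟨?_, ?_, ?_⟩⟩
    · exact h1 2 (-KQ_z p)
    · exact h1 0 (-KQ_z p)
    · exact h1 1 (-KQ_z p)
    · exact (h2 (-KQ_z p)).2.2.symm
    · have h := (h2 (-KQ_z p)).1.symm
      show L 1 (-KQ_z (p + 1)) ≠ L 0 (-KQ_z p)
      rw [KQ_z_succ]
      exact h
    · have h := (h2 (-KQ_z p)).2.1.symm
      show r (-KQ_z p) ≠ L 1 (-KQ_z (p + 1))
      rw [KQ_z_succ]
      exact h
  · rintro ⟨hX, hY⟩
    refine ⟨fun i a => ?_, fun a => ?_⟩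
    · have h := hX (KQ_w (-a))
      rw [KQ_zw, neg_neg] at h
      obtain ⟨h1, h2, h3⟩ := h
      fin_cases i
      · exact h2
      · exact h3
      · exact h1
    · have h := hY (KQ_w (-a))
      rw [KQ_z_succ, KQ_zw, neg_neg] at h
      obtain ⟨h1, h2, h3⟩ := h
      exact ⟨h2.symm, h3.symm, h1.symm⟩

/-- rungs of the colouring of a closed sequence of layers -/
private def KQ_R (m : ℕ) (l : ℕ → Fin 3 → ZMod 3 → Fin 3) (v : ℕ) (p : Fin (2 + 1)) : Fin 3 :=
  if v ≤ m then l (m - v) 2 (-KQ_z p) else l m 2 (KQ_z p)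

private def KQ_Z (m : ℕ) (l : ℕ → Fin 3 → ZMod 3 → Fin 3) (i : Fin 3) (v : ℕ) (p : Fin (2 + 1)) : Fin 3 :=
  l (m - v) i (-KQ_z p)

private def KQ_Psi (m : ℕ) (l : ℕ → Fin 3 → ZMod 3 → Fin 3) : (Fin (m + 1) × Fin (2 + 1)) × Fin 3 → Fin 3 :=
  kcol (KQ_R m l) (KQ_Z m l 0) (KQ_Z m l 1)

private def KQ_Phi (m : ℕ) (c : (Fin (m + 1) × Fin (2 + 1)) × Fin 3 → Fin 3) (t : ℕ) (i : Fin 3) (a : ZMod 3) : Fin 3 :=
  c ((⟨m - t, by omega⟩, KQ_w (-a)), i + 1)

private lemma KQ_R_of_le {m : ℕ} (l : ℕ → Fin 3 → ZMod 3 → Fin 3) {v : ℕ} (hv : v ≤ m) :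
    KQ_R m l v = fun p => l (m - v) 2 (-KQ_z p) := by
  funext p
  exact if_pos hv

private lemma KQ_R_last (m : ℕ) (l : ℕ → Fin 3 → ZMod 3 → Fin 3) :
    KQ_R m l (m + 1) = fun p => l m 2 (KQ_z p) := by
  funext p
  exact if_neg (by omega)

private lemma KQ_P {m : ℕ} {l : ℕ → Fin 3 → ZMod 3 → Fin 3} (h : KCl m l) : (KB m 2 0).P (KQ_Psi m l) := by
  refine kcol_P 0 _ _ _ (fun v hv => ?_) fun p => ?_
  · rcases Nat.lt_or_eq_of_le hv with hv' | rfl
    · obtain ⟨t, ht⟩ : ∃ t, m - v = t + 1 := ⟨m - v - 1, by omega⟩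
      have h1 := (KQ_lok _ _).1 (h.2 t (by omega))
      rw [KQ_R_of_le l hv, KQ_R_of_le l (v := v + 1) (by omega)]
      have h2 : m - (v + 1) = t := by omega
      unfold KQ_Z
      rw [ht, h2]
      exact h1
    · have h1 := (KQ_lok _ _).1 h.1
      rw [KQ_R_of_le l le_rfl, KQ_R_last]
      unfold KQ_Z
      rw [Nat.sub_self]
      simp only [neg_neg] at h1
      exact h1
  · rw [KQ_R_last, KQ_R_of_le l (Nat.zero_le m)]
    show l m 2 (KQ_z p) = l (m - 0) 2 (-KQ_z (0 - p))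
    rw [Nat.sub_zero, KQ_z_neg, neg_neg]

private lemma KQ_Psi_Phi (m : ℕ) (c : (Fin (m + 1) × Fin (2 + 1)) × Fin 3 → Fin 3) : KQ_Psi m (KQ_Phi m c) = c := by
  funext ⟨⟨v, p⟩, j⟩
  have hv : (v : ℕ) ≤ m := by omega
  have key : ∀ i : Fin 3, KQ_Phi m c (m - v) i (-KQ_z p) = c ((v, p), i + 1) := by
    intro i
    have e1 : (⟨m - (m - (v : ℕ)), by omega⟩ : Fin (m + 1)) = v := Fin.ext (by simp only; omega)
    show c ((⟨m - (m - (v : ℕ)), _⟩, KQ_w (- -KQ_z p)), i + 1) = _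
    rw [e1, neg_neg, KQ_wz]
  fin_cases j
  · show KQ_R m (KQ_Phi m c) v p = c ((v, p), 0)
    rw [KQ_R_of_le _ hv]
    exact key 2
  · show KQ_Z m (KQ_Phi m c) 0 v p = c ((v, p), 1)
    exact key 0
  · show KQ_Z m (KQ_Phi m c) 1 v p = c ((v, p), 2)
    exact key 1

private lemma KQ_Cl {m : ℕ} {l : ℕ → Fin 3 → ZMod 3 → Fin 3} (h : (KB m 2 0).P (KQ_Psi m l)) : KCl m l := by
  obtain ⟨h1, h2⟩ := kcol_P' 0 _ _ _ h
  constructor
  · rw [KQ_lok]
    rw [KQ_R_of_le l le_rfl, KQ_R_of_le l (Nat.zero_le m)] at h2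
    unfold KQ_Z at h2
    rw [Nat.sub_self] at h2
    simp only [KQ_z_neg, Nat.sub_zero] at h2
    exact h2
  · intro t ht
    rw [KQ_lok]
    have h3 := h1 (m - (t + 1)) (by omega)
    rw [KQ_R_of_le l (by omega), KQ_R_of_le l (by omega)] at h3
    unfold KQ_Z at h3
    have e1 : m - (m - (t + 1)) = t + 1 := by omega
    have e2 : m - (m - (t + 1) + 1) = t := by omega
    rw [e1, e2] at h3
    exact h3

private lemma KQ_Rel {m : ℕ} {l l' : ℕ → Fin 3 → ZMod 3 → Fin 3} (h : KRl m l l') :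
    Rel (KQ_Psi m l) (KQ_Psi m l') := by
  obtain ⟨k, hk⟩ := h
  refine ⟨k, ?_⟩
  rintro ⟨⟨v, p⟩, j⟩
  have hv : (v : ℕ) ≤ m := by omega
  fin_cases j
  · show KQ_R m l v p = k ↔ KQ_R m l' v p = k
    rw [KQ_R_of_le _ hv, KQ_R_of_le _ hv]
    exact hk _ (by omega) _ _
  · exact hk (m - v) (by omega) 0 _
  · exact hk (m - v) (by omega) 1 _

theorem con_of_kcl (m : ℕ) (h : ∀ l l', KCl m l → KCl m l' → KKE m l l') : (KB m 2 0).Con := by
  intro c c' hc hc'
  have key : ∀ l l', KKE m l l' → (KB m 2 0).KE (KQ_Psi m l) (KQ_Psi m l') := by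
    intro l l' hl
    induction hl with
    | rel a b hab => exact Relation.EqvGen.rel _ _ ⟨KQ_P hab.1, KQ_P hab.2.1, KQ_Rel hab.2.2⟩
    | refl a => exact Relation.EqvGen.refl _
    | symm a b _ ih => exact Relation.EqvGen.symm _ _ ih
    | trans a b d _ _ ih1 ih2 => exact Relation.EqvGen.trans _ _ _ ih1 ih2
  have h1 : KCl m (KQ_Phi m c) := KQ_Cl (by rw [KQ_Psi_Phi]; exact hc)
  have h2 : KCl m (KQ_Phi m c') := KQ_Cl (by rw [KQ_Psi_Phi]; exact hc')
  have h3 := key _ _ (h _ _ h1 h2)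
  rwa [KQ_Psi_Phi, KQ_Psi_Phi] at h3

private theorem KH_lok (π : Equiv.Perm (Fin 3)) {r : ZMod 3 → Fin 3} {l : Fin 3 → ZMod 3 → Fin 3} (h : LOK r l) :
    LOK (fun a => π (r a)) (fun i a => π (l i a)) :=
  ⟨fun i a => π.injective.ne (h.1 i a), fun a => ⟨π.injective.ne (h.2 a).1, π.injective.ne (h.2 a).2.1, π.injective.ne (h.2 a).2.2⟩⟩

private theorem KH_kcl (m : ℕ) {l : ℕ → Fin 3 → ZMod 3 → Fin 3} (h : KCl m l) (π : Equiv.Perm (Fin 3)) :
    KCl m (fun t i a => π (l t i a)) :=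
  ⟨KH_lok π h.1, fun t ht => KH_lok π (h.2 t ht)⟩

theorem kcl_perm (m : ℕ) (l : ℕ → Fin 3 → ZMod 3 → Fin 3) (h : KCl m l) (π : Equiv.Perm (Fin 3)) :
    KCl m (fun t i a => π (l t i a)) ∧ KKE m l (fun t i a => π (l t i a)) := by
  refine ⟨KH_kcl m h π, ?_⟩
  obtain ⟨ρ, ⟨i, hi⟩, ⟨j, hj⟩⟩ := N2_dec4 π
  refine Relation.EqvGen.trans _ _ _
    (Relation.EqvGen.rel _ _ ⟨h, KH_kcl m h ρ, j, fun t _ i' a => ?_⟩)
    (Relation.EqvGen.rel _ _ ⟨KH_kcl m h ρ, KH_kcl m h π, π i, fun t _ i' a => ?_⟩)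
  · show l t i' a = j ↔ ρ (l t i' a) = j
    nth_rewrite 2 [← hj]
    exact ρ.injective.eq_iff.symm
  · show ρ (l t i' a) = π i ↔ π (l t i' a) = π i
    rw [π.injective.eq_iff, hi, ρ.injective.eq_iff]

private theorem KH_path (m : ℕ) {l : ℕ → Fin 3 → ZMod 3 → Fin 3} (r : ZMod 3 → Fin 3) (hr : r = fun a => l m 2 (-a)) :
    KPt (m + 1) r l ↔ KCl m l := by
  constructor
  · intro h
    refine ⟨?_, fun t ht => ?_⟩
    · have h0 := h 0 (Nat.succ_pos m)
      rw [hr] at h0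
      exact h0
    · have h1 := h (t + 1) (Nat.succ_lt_succ ht)
      exact h1
  · intro h t ht
    rcases t with _ | t
    · rw [hr]
      exact h.1
    · exact h.2 t (Nat.lt_of_succ_lt_succ ht)

theorem kcl_rainbow (m : ℕ) (hm : 3 ≤ m) (l l' : ℕ → Fin 3 → ZMod 3 → Fin 3) (h : KCl m l) (h' : KCl m l')
    (hi : Injective (l m 2)) (hi' : Injective (l' m 2)) : KKE m l l' := by
  have hb : Bijective (l m 2) := ⟨hi, (Finite.injective_iff_surjective_of_equiv (ZMod.finEquiv 3).symm.toEquiv).1 hi⟩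
  have hb' : Bijective (l' m 2) := ⟨hi', (Finite.injective_iff_surjective_of_equiv (ZMod.finEquiv 3).symm.toEquiv).1 hi'⟩
  let π : Equiv.Perm (Fin 3) := (Equiv.ofBijective _ hb).symm.trans (Equiv.ofBijective _ hb')
  have hπ : ∀ a, π (l m 2 a) = l' m 2 a := by
    intro a
    show Equiv.ofBijective _ hb' ((Equiv.ofBijective _ hb).symm (l m 2 a)) = l' m 2 a
    have e : (Equiv.ofBijective _ hb).symm (l m 2 a) = a := (Equiv.ofBijective _ hb).symm_apply_apply a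
    rw [e]
    rfl
  obtain ⟨h1, h2⟩ := kcl_perm m l h π
  refine Relation.EqvGen.trans _ _ _ h2 ?_
  set l1 : ℕ → Fin 3 → ZMod 3 → Fin 3 := fun t i a => π (l t i a) with hl1
  have he : l' m 2 = l1 m 2 := funext fun a => (hπ a).symm
  have hp : KPt (m + 1) (fun a => l' m 2 (-a)) l1 := (KH_path m _ (by rw [he])).2 h1
  have hp' : KPt (m + 1) (fun a => l' m 2 (-a)) l' := (KH_path m _ rfl).2 h'
  have hc := path_con m hm (fun a => l' m 2 (-a)) (hi'.comp neg_injective) l1 l' hp hp' he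
  refine Relation.EqvGen.mono ?_ _ _ hc
  rintro x y ⟨⟨hx, ex⟩, ⟨hy, ey⟩, hk⟩
  refine ⟨(KH_path m _ ?_).1 hx, (KH_path m _ ?_).1 hy, hk⟩
  · rw [ex, he]
  · rw [ey, he]

/-- every colour occurs equally often in the row below a layer and in the row above it -/
theorem kcl_cnt (r : ZMod 3 → Fin 3) (l : Fin 3 → ZMod 3 → Fin 3) (h : LOK r l) (k : Fin 3) :
    (univ.filter fun a => l 2 a = k).card = (univ.filter fun a => r a = k).card := by
  have h3 : ∀ x y z k : Fin 3, x ≠ y → y ≠ z → z ≠ x →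
      (if x = k then 1 else 0) + (if y = k then 1 else 0) + (if z = k then 1 else 0) = 1 := by
    decide
  have hX : ∑ a : ZMod 3, ((if l 0 a = k then 1 else 0) + (if l 1 a = k then 1 else 0) +
      (if l 2 a = k then 1 else 0)) = ∑ _a : ZMod 3, 1 := by
    refine Finset.sum_congr rfl fun a _ => h3 _ _ _ _ ?_ ?_ ?_
    · exact (h.1 0 a).symm
    · exact (h.1 1 a).symm
    · exact (h.1 2 a).symm
  have hY : ∑ a : ZMod 3, ((if l 0 a = k then 1 else 0) +
      (if l 1 (a - 1) = k then 1 else 0) +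
      (if r a = k then 1 else 0)) = ∑ _a : ZMod 3, 1 := by
    refine Finset.sum_congr rfl fun a _ => h3 _ _ _ _ ?_ ?_ ?_
    · exact (h.2 a).1
    · exact (h.2 a).2.1
    · exact (h.2 a).2.2
  have hs : ∑ a : ZMod 3, (if l 1 (a - 1) = k then 1 else 0) =
      ∑ a : ZMod 3, (if l 1 a = k then 1 else 0) :=
    Equiv.sum_comp (Equiv.subRight (1 : ZMod 3)) fun a => (if l 1 a = k then 1 else 0)
  rw [Finset.sum_add_distrib, Finset.sum_add_distrib] at hX hY
  rw [Finset.card_filter, Finset.card_filter]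
  omega

/-- a colour missing below a layer is missing above it -/
private lemma kcl_up (r : ZMod 3 → Fin 3) (l : Fin 3 → ZMod 3 → Fin 3) (h : LOK r l) (k : Fin 3)
    (hr : ∀ a, r a ≠ k) : ∀ a, l 2 a ≠ k := by
  intro a ha
  have h1 := kcl_cnt r l h k
  have h2 : (univ.filter fun a => r a = k).card = 0 := by
    rw [Finset.card_eq_zero, Finset.filter_eq_empty_iff]
    intro a _
    exact hr a
  rw [h2] at h1
  have h3 := Finset.card_eq_zero.1 h1
  rw [Finset.filter_eq_empty_iff] at h3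
  exact h3 (Finset.mem_univ a) ha

theorem kcl_cases (m : ℕ) (l : ℕ → Fin 3 → ZMod 3 → Fin 3) (h : KCl m l) :
    Injective (l m 2) ∨ ∃ k, ∀ t ≤ m, ∀ a, l t 2 a ≠ k := by
  by_cases hi : Injective (l m 2)
  · exact Or.inl hi
  · right
    have hsurj : ¬ Surjective (l m 2) := by
      intro hs
      exact hi ((Finite.injective_iff_surjective_of_equiv (ZMod.finEquiv 3).symm.toEquiv).2 hs)
    have hex : ∃ k, ∀ a, l m 2 a ≠ k := by
      by_contra hcon
      push Not at hcon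
      exact hsurj hcon
    obtain ⟨k, hk⟩ := hex
    refine ⟨k, fun t => ?_⟩
    induction t with
    | zero =>
      intro _
      exact kcl_up _ _ h.1 k fun a => hk (-a)
    | succ t ih =>
      intro ht
      exact kcl_up _ _ (h.2 t (by omega)) k (ih (by omega))

/-- recolouring a layer over a row which misses the colour `k` -/
private lemma kcl_F (r : ZMod 3 → Fin 3) (l : Fin 3 → ZMod 3 → Fin 3) (h : LOK r l) (k : Fin 3)
    (hr : ∀ a, r a ≠ k) : LOK (fun a => N2_F k 2 (r a)) (fun i a => N2_F k i (l i a)) := by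
  have hk := kcl_up r l h k hr
  refine ⟨?_, ?_⟩
  · intro i a
    have hd := N2_dec1 k (l 0 a) (l 1 a) (l 2 a) (h.1 0 a) (h.1 1 a) (h.1 2 a) (hk a)
    fin_cases i
    · exact hd.1
    · exact hd.2.1
    · exact hd.2.2
  · intro a
    have hY := h.2 a
    have hd := N2_dec1 k (l 0 a) (l 1 (a - 1)) (r a) hY.1.symm hY.2.1.symm hY.2.2.symm (hr a)
    exact ⟨hd.1.symm, hd.2.1.symm, hd.2.2.symm⟩

/-- colourings depending on the slot only -/
private def kcl_sc (σ : Equiv.Perm (Fin 3)) : ℕ → Fin 3 → ZMod 3 → Fin 3 := fun _ i _ => σ i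

private lemma kcl_scL (σ : Equiv.Perm (Fin 3)) :
    LOK (fun _ => σ 2) (fun i _ => σ i) := by
  refine ⟨?_, ?_⟩
  · intro i a e
    exact absurd (σ.injective e) ((by decide : ∀ i : Fin 3, i + 1 ≠ i) i)
  · intro a
    refine ⟨fun e => ?_, fun e => ?_, fun e => ?_⟩
    · exact absurd (σ.injective e) (by decide)
    · exact absurd (σ.injective e) (by decide)
    · exact absurd (σ.injective e) (by decide)

private lemma kcl_scK (m : ℕ) (σ : Equiv.Perm (Fin 3)) : KCl m (kcl_sc σ) :=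
  ⟨kcl_scL σ, fun _ _ => kcl_scL σ⟩

private lemma kcl_scR (m : ℕ) (σ τ : Equiv.Perm (Fin 3)) (i : Fin 3) (h : σ i = τ i) :
    KRl m (kcl_sc σ) (kcl_sc τ) := by
  refine ⟨σ i, fun t _ j a => ?_⟩
  show σ j = σ i ↔ τ j = σ i
  rw [σ.injective.eq_iff, h, τ.injective.eq_iff]

theorem kcl_miss (m : ℕ) (l : ℕ → Fin 3 → ZMod 3 → Fin 3) (h : KCl m l) (k : Fin 3) (hk : ∀ t ≤ m, ∀ a, l t 2 a ≠ k) :
    KKE m l (fun _ i _ => i) := by
  have h1 : KCl m (fun t i a => N2_F k i (l t i a)) :=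
    ⟨kcl_F _ _ h.1 k fun a => hk m le_rfl (-a), fun t ht => kcl_F _ _ (h.2 t ht) k (hk t ht.le)⟩
  have r1 : KRl m l (fun t i a => N2_F k i (l t i a)) :=
    ⟨k, fun t _ i a => N2_dec2 k i (l t i a)⟩
  have r2 : KRl m (fun t i a => N2_F k i (l t i a)) (kcl_sc (Equiv.subLeft k)) := by
    refine ⟨k + 1, fun t ht i a => N2_dec3 k i (l t i a) ?_⟩
    intro hi
    subst hi
    exact hk t ht a
  obtain ⟨ρ, ⟨i, hi⟩, ⟨j, hj⟩⟩ := N2_dec4 (Equiv.subLeft k)
  have e : (fun _ i _ => i : ℕ → Fin 3 → ZMod 3 → Fin 3) = kcl_sc 1 := rfl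
  rw [e]
  refine Relation.EqvGen.trans _ _ _ (Relation.EqvGen.rel _ _ ⟨h, h1, r1⟩) ?_
  refine Relation.EqvGen.trans _ _ _ (Relation.EqvGen.rel _ _ ⟨h1, kcl_scK m (Equiv.subLeft k), r2⟩) ?_
  refine Relation.EqvGen.trans _ _ _ (Relation.EqvGen.rel _ _ ⟨kcl_scK m (Equiv.subLeft k), kcl_scK m ρ, kcl_scR m _ _ i hi⟩) ?_
  exact Relation.EqvGen.rel _ _ ⟨kcl_scK m ρ, kcl_scK m 1, kcl_scR m _ _ j hj⟩

private def klf : Fin 3 → ZMod 3 → Fin 3 := fun i a =>
  (![![0, 1, 1], ![2, 2, 2], ![1, 0, 0]] : Fin 3 → Fin 3 → Fin 3) i a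

private def klg0 : Fin 3 → ZMod 3 → Fin 3 := fun i a =>
  (![![2, 1, 1], ![0, 2, 0], ![1, 0, 2]] : Fin 3 → Fin 3 → Fin 3) i a

private def klg1 : Fin 3 → ZMod 3 → Fin 3 := fun i a =>
  (![![0, 1, 1], ![2, 0, 2], ![1, 2, 0]] : Fin 3 → Fin 3 → Fin 3) i a

private lemma klf_step : LOK (klf 2) klf := by
  unfold LOK
  decide

private lemma klf_close : LOK (fun a => klf 2 (-a)) klf := by
  unfold LOK
  decide

private lemma klg_01 : LOK (klg0 2) klg1 := by
  unfold LOK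
  decide

private lemma klg_10 : LOK (klg1 2) klg0 := by
  unfold LOK
  decide

private lemma klg_close : LOK (fun a => klg0 2 (-a)) klg0 := by
  unfold LOK
  decide

private lemma kl_rel0 : ∀ i a, klf i a = 1 ↔ klg0 i a = 1 := by
  decide

private lemma kl_rel1 : ∀ i a, klf i a = 1 ↔ klg1 i a = 1 := by
  decide

private lemma klf_ne : ∀ a, klf 2 a ≠ 2 := by
  decide

private lemma klg_inj : Injective (klg0 2) := by
  intro a b
  revert a b
  decide

theorem kcl_link (m : ℕ) (h2 : m % 2 = 0) :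
    ∃ f g, KCl m f ∧ KCl m g ∧ KRl m f g ∧ (∀ t ≤ m, ∀ a, f t 2 a ≠ 2) ∧ Injective (g m 2) := by
  have hg : ∀ t, t % 2 = 0 → (fun t => if t % 2 = 0 then klg0 else klg1 : ℕ → Fin 3 → ZMod 3 → Fin 3) t = klg0 :=
    fun t ht => if_pos ht
  have hg' : ∀ t, t % 2 ≠ 0 → (fun t => if t % 2 = 0 then klg0 else klg1 : ℕ → Fin 3 → ZMod 3 → Fin 3) t = klg1 :=
    fun t ht => if_neg ht
  refine ⟨fun _ => klf, fun t => if t % 2 = 0 then klg0 else klg1, ⟨klf_close, fun _ _ => klf_step⟩, ⟨?_, ?_⟩,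
    ⟨1, ?_⟩, fun _ _ => klf_ne, ?_⟩
  · rw [hg m h2, hg 0 rfl]
    exact klg_close
  · intro t _
    rcases Nat.mod_two_eq_zero_or_one t with h | h
    · rw [hg t h, hg' (t + 1) (by omega)]
      exact klg_01
    · rw [hg' t (by omega), hg (t + 1) (by omega)]
      exact klg_10
  · intro t _ i a
    rcases Nat.mod_two_eq_zero_or_one t with h | h
    · rw [hg t h]
      exact kl_rel0 i a
    · rw [hg' t (by omega)]
      exact kl_rel1 i a
  · rw [hg m h2]
    exact klg_inj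

end Pool.Agent.PP
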