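import Pool.Agent.Lib_MP_7c0803_kb.Kq
import Pool.Agent.Lib_MP_7c0803_tor.KRot

/-!
# The Klein bottle with three positions and an odd number of levels, at least five, has one Kempe class
-/

set_option autoImplicit false

open Finset Function

namespace Pool.Agent.PP

theorem con_kb (m : ℕ) (hm : 4 ≤ m) (h2 : m % 2 = 0) (r : Fin 3) : (KB m 2 r).Con := by
  obtain ⟨f₀, g₀, h1, h3, h4, h5, h6⟩ := kcl_link m h2
  have key : ∀ l, KCl m l → KKE m l (fun _ i _ => i) := by
    intro l hl
    rcases kcl_cases m l hl with hi | ⟨k, hk⟩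
    · have h7 : KKE m l g₀ := kcl_rainbow m (by omega) l g₀ hl h3 hi h6
      have h8 : KKE m f₀ g₀ := Relation.EqvGen.rel _ _ ⟨h1, h3, h4⟩
      exact h7.trans _ _ _ ((h8.symm _ _).trans _ _ _ (kcl_miss m f₀ h1 2 h5))
    · exact kcl_miss m l hl k hk
  have h : (KB m 2 0).Con := con_of_kcl m fun l l' hl hl' => (key l hl).trans _ _ _ ((key l' hl').symm _ _)
  obtain ⟨i⟩ := kb_all m 2 0 r
  exact i.Con.1 h

end Pool.Agent.PP
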