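import Pool.Agent.Lib_MP_7c0803_hon.R
import Pool.Agent.Lib_MP_7c0803_tor.KDefs

/-!
# [KB-K], [KB-L] Graphs given by three bijections

`BGr f`: the simple graph with the `X`-vertices `(a, false)`, the `Y`-vertices `(b, true)`, `(a, false)` adjacent to `(f j a, true)`.

[KB-K] `iso_of_uisoB`: adapt the proof of `iso_of_uiso` in `Lib_MP_7c0803_hon/R.lean` (finished there; `SO_BG_s`, `SO_BG_t` instead of `SO_HG_s`, `SO_HG_t`): `vx e ↦ ((i.j e).1, false)`,
`vy e ↦ (f (i.j e).2 (i.j e).1, true)`.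

[KB-L] `uiso_of_isoB`: adapt the proof of `uiso_of_iso` in `Lib_MP_7c0803_hon/R.lean` (or do it directly): `κ v = !(φ v).2`.  For an edge `e` let `φ (vx e) = (a, false)`, `φ (vy e) = (b, true)`, `b = f j a`; `j` is unique:
the three neighbours `f 0 a, f 1 a, f 2 a` are different since the degree is three (`hcub` at `vx e`).  `j e = (a, j)`: injective (an edge is determined by its ends in a simple graph), surjective.
`SO` is: same end, different edge (`toCB_ends`, `SO_BG_s`, `SO_BG_t`).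
-/

set_option autoImplicit false

open Finset Function

namespace Pool.Agent.PP

open SimpleGraph

universe u v

/-- the graph given by the bijections `f 0, f 1, f 2` -/
def BGr {A : Type v} (f : Fin 3 → Equiv.Perm A) : SimpleGraph (A × Bool) where
  Adj x y := (x.2 = false ∧ y.2 = true ∧ ∃ j, f j x.1 = y.1) ∨ (y.2 = false ∧ x.2 = true ∧ ∃ j, f j y.1 = x.1)
  symm := ⟨fun _ _ h => h.symm⟩
  loopless := ⟨by
    rintro ⟨i, b⟩ h
    rcases h with ⟨h1, h2, _⟩ | ⟨h1, h2, _⟩
    · rw [h1] at h2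
      exact Bool.noConfusion h2
    · rw [h1] at h2
      exact Bool.noConfusion h2⟩

variable {V : Type u} {G : SimpleGraph V}

theorem iso_of_uisoB {A : Type v} (f : Fin 3 → Equiv.Perm A) (M : Emb G) (κ : G.Coloring Bool) (hcub : ∀ v, (G.neighborSet v).ncard = 3)
    (i : Nonempty (UIso (toCB M κ hcub) (BG f))) : Nonempty (G ≃g BGr f) := by
  classical
  obtain ⟨i⟩ := i
  obtain ⟨vx, vy, hends, hκx, hκy, hx, hy, hsurj⟩ := toCB_ends M κ hcub
  have cx : ∀ e e', vx e = vx e' ↔ (i.j e).1 = (i.j e').1 := by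
    intro e e'
    rw [hx, i.hs]
    have h1 : SO (BG f).s (i.j e) (i.j e') ↔ ((i.j e').1 = (i.j e).1 ∧ (i.j e').2 ≠ (i.j e).2) :=
      SO_BG_s f (i.j e).1 (i.j e').1 (i.j e).2 (i.j e').2
    rw [h1]
    constructor
    · rintro (h | h)
      · rw [h]
      · exact h.1.symm
    · intro h
      by_cases h2 : (i.j e').2 = (i.j e).2
      · exact Or.inl (i.j.injective (Prod.ext h.symm h2))
      · exact Or.inr ⟨h.symm, h2⟩
  have cy : ∀ e e', vy e = vy e' ↔ f (i.j e).2 (i.j e).1 = f (i.j e').2 (i.j e').1 := by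
    intro e e'
    rw [hy, i.ht]
    have h1 : SO (BG f).t (i.j e) (i.j e') ↔
        (f (i.j e').2 (i.j e').1 = f (i.j e).2 (i.j e).1 ∧ (i.j e').2 ≠ (i.j e).2) :=
      SO_BG_t f (i.j e).1 (i.j e').1 (i.j e).2 (i.j e').2
    rw [h1]
    constructor
    · rintro (h | h)
      · rw [h]
      · exact h.1.symm
    · intro h
      by_cases h2 : (i.j e').2 = (i.j e).2
      · rw [h2] at h
        exact Or.inl (i.j.injective (Prod.ext ((f (i.j e).2).injective h).symm h2))
      · exact Or.inr ⟨h.symm, h2⟩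
  have hF : ∀ v, ∃ p : A × Bool, (∀ e, vx e = v → p = ((i.j e).1, false)) ∧
      (∀ e, vy e = v → p = (f (i.j e).2 (i.j e).1, true)) ∧ p.2 = !κ v := by
    intro v
    rcases hv : κ v with _ | _
    · obtain ⟨e, he⟩ := (hsurj v).2 hv
      refine ⟨(f (i.j e).2 (i.j e).1, true), fun e' he' => ?_, fun e' he' => ?_, rfl⟩
      · have h1 := hκx e'
        rw [he', hv] at h1
        exact absurd h1 (by decide)
      · rw [(cy e e').1 (he.trans he'.symm)]
    · obtain ⟨e, he⟩ := (hsurj v).1 hv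
      refine ⟨((i.j e).1, false), fun e' he' => ?_, fun e' he' => ?_, rfl⟩
      · rw [(cx e e').1 (he.trans he'.symm)]
      · have h1 := hκy e'
        rw [he', hv] at h1
        exact absurd h1 (by decide)
  choose F hF1 hF2 hF3 using hF
  have Fx : ∀ e, F (vx e) = ((i.j e).1, false) := fun e => hF1 _ e rfl
  have Fy : ∀ e, F (vy e) = (f (i.j e).2 (i.j e).1, true) := fun e => hF2 _ e rfl
  have adj1 : ∀ v w, ((F v).2 = false ∧ (F w).2 = true ∧ ∃ j, f j (F v).1 = (F w).1) → G.Adj v w := by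
    intro v w h
    obtain ⟨h1, h2, k, h3⟩ := h
    rw [hF3] at h1 h2
    have h1' : κ v = true := by
      cases hv : κ v
      · rw [hv] at h1
        exact absurd h1 (by decide)
      · rfl
    have h2' : κ w = false := by
      cases hw : κ w
      · rfl
      · rw [hw] at h2
        exact absurd h2 (by decide)
    obtain ⟨e, rfl⟩ := (hsurj v).1 h1'
    obtain ⟨e', rfl⟩ := (hsurj w).2 h2'
    rw [Fx, Fy] at h3
    have h4 : f k (i.j e).1 = f (i.j e').2 (i.j e').1 := h3
    have h5 : i.j (i.j.symm ((i.j e).1, k)) = ((i.j e).1, k) := i.j.apply_symm_apply _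
    have h6 : vx (i.j.symm ((i.j e).1, k)) = vx e := (cx _ _).2 (by rw [h5])
    have h7 : vy (i.j.symm ((i.j e).1, k)) = vy e' := (cy _ _).2 (by rw [h5]; exact h4)
    have h8 := (i.j.symm ((i.j e).1, k)).2
    rw [hends, h6, h7] at h8
    exact h8
  refine ⟨⟨Equiv.ofBijective F ⟨?_, ?_⟩, ?_⟩⟩
  · intro v w h
    have h1 : κ v = κ w := by
      have h2 : (!κ v) = !κ w := by rw [← hF3 v, ← hF3 w, h]
      exact Bool.not_inj h2
    rcases hv : κ v with _ | _
    · obtain ⟨e, rfl⟩ := (hsurj v).2 hv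
      obtain ⟨e', rfl⟩ := (hsurj w).2 (h1.symm.trans hv)
      rw [Fy, Fy] at h
      exact (cy e e').2 (Prod.mk.inj h).1
    · obtain ⟨e, rfl⟩ := (hsurj v).1 hv
      obtain ⟨e', rfl⟩ := (hsurj w).1 (h1.symm.trans hv)
      rw [Fx, Fx] at h
      exact (cx e e').2 (Prod.mk.inj h).1
  · rintro ⟨x, _ | _⟩
    · refine ⟨vx (i.j.symm (x, 0)), ?_⟩
      rw [Fx, i.j.apply_symm_apply]
    · refine ⟨vy (i.j.symm ((f 0).symm x, 0)), ?_⟩
      rw [Fy, i.j.apply_symm_apply]
      exact Prod.ext ((f 0).apply_symm_apply x) rfl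
  · intro v w
    change (((F v).2 = false ∧ (F w).2 = true ∧ ∃ j, f j (F v).1 = (F w).1) ∨
      ((F w).2 = false ∧ (F v).2 = true ∧ ∃ j, f j (F w).1 = (F v).1)) ↔ G.Adj v w
    constructor
    · rintro (h | h)
      · exact adj1 v w h
      · exact (adj1 w v h).symm
    · intro h
      have key : ∀ (v' w' : V) (e : G.edgeSet), v' = vx e → w' = vy e →
          ((F v').2 = false ∧ (F w').2 = true ∧ ∃ j, f j (F v').1 = (F w').1) := by
        intro v' w' e hv' hw'
        rw [hv', hw', Fx, Fy]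
        exact ⟨rfl, rfl, _, rfl⟩
      have h1 := hends ⟨s(v, w), h⟩
      rcases Sym2.eq_iff.1 h1 with ⟨h2, h3⟩ | ⟨h2, h3⟩
      · exact Or.inl (key _ _ _ h2 h3)
      · exact Or.inr (key _ _ _ h3 h2)

private lemma KBL_SO_ne {E : Type*} (s : Equiv.Perm E) (s3 : ∀ e, s (s (s e)) = e) (s1 : ∀ e, s e ≠ e) {e f : E}
    (h : SO s e f) : f ≠ e := by
  rintro rfl
  rcases h with h | h
  · exact s1 f h.symm
  · have h1 := s3 f
    rw [← h] at h1
    exact s1 f h1

private lemma KBL_inj {A : Type v} (f : Fin 3 → Equiv.Perm A) (hcub : ∀ v, (G.neighborSet v).ncard = 3)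
    (φ : G ≃g BGr f) (a : A) : Injective (fun j : Fin 3 => f j a) := by
  classical
  have h0 := hcub (φ.symm (a, false))
  have h1 : φ '' (G.neighborSet (φ.symm (a, false))) ⊆ ((Finset.univ.image fun j : Fin 3 => (f j a, true) :
      Finset (A × Bool)) : Set (A × Bool)) := by
    rintro _ ⟨w, hw, rfl⟩
    have h2 : G.Adj (φ.symm (a, false)) w := hw
    rw [← φ.map_adj_iff, φ.apply_symm_apply] at h2
    rw [Finset.mem_coe, Finset.mem_image]
    rcases h2 with h | h
    · obtain ⟨-, h3, j, h4⟩ := h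
      exact ⟨j, Finset.mem_univ _, Prod.ext h4 h3.symm⟩
    · exact absurd h.2.1 (by simp)
  have h2 : (φ '' (G.neighborSet (φ.symm (a, false)))).ncard = 3 := by
    rw [Set.ncard_image_of_injective _ φ.injective, h0]
  have h3 := Set.ncard_le_ncard h1 (Finset.finite_toSet _)
  rw [h2, Set.ncard_coe_finset] at h3
  have h4 : (Finset.univ.image fun j : Fin 3 => (f j a, true)).card = (Finset.univ : Finset (Fin 3)).card :=
    le_antisymm Finset.card_image_le (by simpa using h3)
  have h5 := Finset.card_image_iff.1 h4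
  intro i j hij
  refine h5 (by simp) (by simp) ?_
  have hij' : f i a = f j a := hij
  simp only [hij']

theorem uiso_of_isoB {A : Type v} (f : Fin 3 → Equiv.Perm A) (hcub : ∀ v, (G.neighborSet v).ncard = 3) (φ : G ≃g BGr f) :
    ∃ κ : G.Coloring Bool, ∀ M : Emb G, Nonempty (UIso (toCB M κ hcub) (BG f)) := by
  classical
  have hinj := KBL_inj f hcub φ
  refine ⟨SimpleGraph.Coloring.mk (fun v => !(φ v).2) ?_, ?_⟩
  · intro v w h
    rw [← φ.map_adj_iff] at h
    rcases h with h | h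
    · show (!(φ v).2) ≠ (!(φ w).2)
      rw [h.1, h.2.1]
      decide
    · show (!(φ v).2) ≠ (!(φ w).2)
      rw [h.1, h.2.1]
      decide
  intro M
  set κ : G.Coloring Bool := SimpleGraph.Coloring.mk (fun v => !(φ v).2) _ with hκdef
  obtain ⟨vx, vy, hends, hκx, hκy, hx, hy, -⟩ := toCB_ends M κ hcub
  have kx : ∀ e, (φ (vx e)).2 = false := fun e => by
    have h : (!(φ (vx e)).2) = true := hκx e
    simpa using h
  have ky : ∀ e, (φ (vy e)).2 = true := fun e => by
    have h : (!(φ (vy e)).2) = false := hκy e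
    simpa using h
  have hadj : ∀ e : G.edgeSet, G.Adj (vx e) (vy e) := fun e => by
    have h := e.2
    rw [hends] at h
    exact h
  have hk : ∀ e, ∃ k : Fin 3, f k (φ (vx e)).1 = (φ (vy e)).1 := by
    intro e
    have h := hadj e
    rw [← φ.map_adj_iff] at h
    rcases h with h | h
    · exact h.2.2
    · exact absurd (h.1.symm.trans (ky e)) (by decide)
  choose k hk using hk
  have hxe : ∀ e g, vx e = vx g ↔ (φ (vx e)).1 = (φ (vx g)).1 := fun e g =>
    ⟨fun h => by rw [h], fun h => φ.injective (Prod.ext h ((kx e).trans (kx g).symm))⟩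
  have hye : ∀ e g, vy e = vy g ↔ f (k e) (φ (vx e)).1 = f (k g) (φ (vx g)).1 := fun e g => by
    rw [hk, hk]
    exact ⟨fun h => by rw [h], fun h => φ.injective (Prod.ext h ((ky e).trans (ky g).symm))⟩
  have hef : ∀ e g : G.edgeSet, vx e = vx g → vy e = vy g → e = g := fun e g h1 h2 => by
    apply Subtype.ext
    rw [hends e, hends g, h1, h2]
  set J : G.edgeSet → A × Fin 3 := fun e => ((φ (vx e)).1, k e) with hJ
  have hJi : Injective J := by
    intro e g h
    have h1 : (φ (vx e)).1 = (φ (vx g)).1 := congrArg (fun p : A × Fin 3 => p.1) h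
    have h2 : k e = k g := congrArg (fun p : A × Fin 3 => p.2) h
    exact hef e g ((hxe e g).2 h1) ((hye e g).2 (by rw [h1, h2]))
  have hJs : Surjective J := by
    rintro ⟨x, i⟩
    have h1 : G.Adj (φ.symm (x, false)) (φ.symm (f i x, true)) := by
      rw [← φ.map_adj_iff, φ.apply_symm_apply, φ.apply_symm_apply]
      exact Or.inl ⟨rfl, rfl, i, rfl⟩
    refine ⟨⟨s(φ.symm (x, false), φ.symm (f i x, true)), h1⟩, ?_⟩
    set e : G.edgeSet := ⟨s(φ.symm (x, false), φ.symm (f i x, true)), h1⟩ with he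
    have h2 : s(φ.symm (x, false), φ.symm (f i x, true)) = s(vx e, vy e) := hends e
    rcases Sym2.eq_iff.1 h2 with ⟨h3, h4⟩ | ⟨h3, h4⟩
    · have h5 : φ (vx e) = (x, false) := by rw [← h3, φ.apply_symm_apply]
      have h6 : φ (vy e) = (f i x, true) := by rw [← h4, φ.apply_symm_apply]
      have h7 := hk e
      rw [h5, h6] at h7
      have h8 : k e = i := hinj x h7
      exact Prod.ext (by rw [hJ]; simp only [h5]) h8
    · have h5 := ky e
      rw [← h3, φ.apply_symm_apply] at h5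
      exact absurd h5 (by simp)
  refine ⟨⟨Equiv.ofBijective J ⟨hJi, hJs⟩, ?_, ?_⟩⟩
  · intro e g
    have h1 : SO (BG f).s (J e) (J g) ↔ ((J g).1 = (J e).1 ∧ (J g).2 ≠ (J e).2) :=
      SO_BG_s f (J e).1 (J g).1 (J e).2 (J g).2
    show SO (toCB M κ hcub).s e g ↔ SO (BG f).s (J e) (J g)
    rw [h1]
    constructor
    · intro h
      have h2 : vx e = vx g := (hx e g).2 (Or.inr h)
      have h3 : (φ (vx e)).1 = (φ (vx g)).1 := (hxe e g).1 h2
      refine ⟨h3.symm, fun h4 => ?_⟩
      exact KBL_SO_ne _ (toCB M κ hcub).s3 (toCB M κ hcub).s1 h (hJi (Prod.ext h3.symm h4))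
    · rintro ⟨h2, h3⟩
      rcases (hx e g).1 ((hxe e g).2 h2.symm) with h4 | h4
      · exact absurd (by rw [h4]) h3
      · exact h4
  · intro e g
    have h1 : SO (BG f).t (J e) (J g) ↔
        (f (J g).2 (J g).1 = f (J e).2 (J e).1 ∧ (J g).2 ≠ (J e).2) :=
      SO_BG_t f (J e).1 (J g).1 (J e).2 (J g).2
    show SO (toCB M κ hcub).t e g ↔ SO (BG f).t (J e) (J g)
    rw [h1]
    constructor
    · intro h
      have h2 : vy e = vy g := (hy e g).2 (Or.inr h)
      have h3 := (hye e g).1 h2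
      refine ⟨h3.symm, fun h4 => ?_⟩
      have h4' : k g = k e := h4
      have h5 : (φ (vx e)).1 = (φ (vx g)).1 := by
        rw [h4'] at h3
        exact (f (k e)).injective h3
      exact KBL_SO_ne _ (toCB M κ hcub).t3 (toCB M κ hcub).t1 h (hJi (Prod.ext h5.symm h4))
    · rintro ⟨h2, h3⟩
      rcases (hy e g).1 ((hye e g).2 h2.symm) with h4 | h4
      · exact absurd (by rw [h4]) h3
      · exact h4

end Pool.Agent.PP
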