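import Pool.Agent.Lib_MP_7c0803_hon.T
import Pool.Agent.Lib_MP_7c0803_tor.KEmb
import Pool.Agent.Lib_MP_7c0803_tor.KFinal
import Pool.Agent.Lib_MP_7c0803_kb.Kd
import Pool.Agent.Lib_MP_7c0803_kb.Kr
import Pool.Agent.Lib_MP_7c0803_kb.Ks

/-!
# Cubic bipartite graphs without 4-cycles in surfaces of Euler characteristic at least zero
-/

set_option autoImplicit false

open Finset Function

namespace Pool.Agent.PP

open SimpleGraph

universe u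

lemma kleinGraph_eq : kleinGraph = BGr (kf 2 2 0) := by
  ext x y
  rfl

variable {V : Type u} {G : SimpleGraph V}

/-- the honeycomb graphs with constant parity -/
theorem nonneg_spc [Finite V] (M : Emb G) (κ : G.Coloring Bool) (hcub : ∀ v, (G.neighborSet v).ncard = 3)
    (hG : G.Connected) (hχ : Nat.card G.edgeSet ≤ Nat.card V + Nat.card M.Face)
    (h4 : ∀ a b c d, G.Adj a b → G.Adj b c → G.Adj c d → G.Adj d a → a = c ∨ b = d) (hE : EvenFlips G) :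
    (∃ L, (IsTube L ∨ L = Lt (2, 2) (0, 8) ∨ L = Lt (2, 1) (-7, 0) ∨ L = Lt (2, 1) (-10, 0)) ∧
      Nonempty (UIso (toCB M κ hcub) (HT L))) ∨
    ∃ m, 2 ≤ m ∧ m % 2 = 0 ∧ Nonempty (UIso (toCB M κ hcub) (KB m 2 0)) := by
  classical
  have : Fintype G.edgeSet := Fintype.ofFinite _
  have hp : (toCB M κ hcub).PC := (PC_iff M κ hcub).2 hE
  obtain ⟨hT, hD, hS⟩ := girth_cb M κ hcub h4
  have hC := cn_of_connected M κ hcub hG
  have h6 := hexagons (toCB M κ hcub) (twE M κ) ((chi0_iff M κ hcub).1 hχ) hT hD hS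
  have h3 := dc_h3 (toCB M κ hcub) (twE M κ) h6
  have hne : Nonempty G.edgeSet := by
    obtain ⟨v⟩ := hG.nonempty
    have h7 : (G.neighborSet v).Nonempty := by
      rw [← Set.ncard_pos (Set.toFinite _), hcub]
      norm_num
    obtain ⟨w, hw⟩ := h7
    exact ⟨⟨s(v, w), hw⟩⟩
  by_cases hn : (dc (toCB M κ hcub) (twE M κ)).Cn
  · right
    obtain ⟨a, b, c, ⟨K⟩⟩ := exists_KCo (toCB M κ hcub) (twE M κ) hn h3 (dc_h1 (toCB M κ hcub) (twE M κ) hT hD)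
    obtain ⟨ha, hb⟩ := K.big hT hD hS
    obtain ⟨r, ⟨i⟩⟩ := K.uiso
    have h7 : (KB a b r).PC := i.PC.1 hp
    have h8 : ¬ (a % 2 = 1 ∨ 3 ≤ b) := fun h => npc_kb a b ha hb r h h7
    obtain rfl : b = 2 := by omega
    obtain ⟨i'⟩ := kb_all a 2 r 0
    exact ⟨a, ha, by omega, ⟨i.trans i'⟩⟩
  · left
    obtain ⟨L, n, hn, h1, h2, hnm, i⟩ := untw (toCB M κ hcub) (twE M κ) hC hn h3 hT hD hS
    exact spc_of_pc (toCB M κ hcub) L n hn h1 h2 hnm i hp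

theorem kb_small : ¬ (KB 2 2 0).Con ∧ (KB 2 2 0).PC := by
  classical
  obtain ⟨-, h2, h3, h4, h5⟩ := klein_facts
  obtain ⟨M, -⟩ := klein_embedded
  obtain ⟨κ, hκ⟩ := uiso_of_isoB (G := kleinGraph) (kf 2 2 0) h3 (by rw [kleinGraph_eq])
  have : Fintype kleinGraph.edgeSet := Fintype.ofFinite _
  obtain ⟨i⟩ := hκ M
  exact ⟨fun h => h5 ((Kc_iff M κ h3).2 (i.Con.2 h)), i.PC.1 ((PC_iff M κ h3).2 h4)⟩

/-- **Euler characteristic at least zero, girth six.** -/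
theorem nonneg_girth6 [Finite V] (M : Emb G) (κ : G.Coloring Bool) (hcub : ∀ v, (G.neighborSet v).ncard = 3)
    (hG : G.Connected) (hχ : Nat.card G.edgeSet ≤ Nat.card V + Nat.card M.Face)
    (h4 : ∀ a b c d, G.Adj a b → G.Adj b c → G.Adj c d → G.Adj d a → a = c ∨ b = d) :
    (Kc G.lineGraph 3 = 1 ↔ (∃ (s : ℤ) (k : ℕ), 2 ≤ k ∧ Nonempty (G ≃g Hon (Lt (3, 0) (s, 2 * k)))) ∨
      Nonempty (G ≃g Hon (Lt (2, 2) (0, 8))) ∨ ∃ k : ℕ, 2 ≤ k ∧ Nonempty (G ≃g BGr (kf (2 * k) 2 0))) ∧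
    ((EvenFlips G ∧ Kc G.lineGraph 3 ≠ 1) ↔ Nonempty (G ≃g Hon (Lt (2, 1) (-7, 0))) ∨
      Nonempty (G ≃g Hon (Lt (2, 1) (-10, 0))) ∨ Nonempty (G ≃g kleinGraph)) := by
  classical
  have : Fintype G.edgeSet := Fintype.ofFinite _
  have hcon : ∀ L : AddSubgroup (ℤ × ℤ), (HT L).Con → Nonempty (G ≃g Hon L) → Kc G.lineGraph 3 = 1 := by
    rintro L hL ⟨φ⟩
    obtain ⟨κ', hκ⟩ := uiso_of_iso hcub L φ
    obtain ⟨i⟩ := hκ M
    exact (Kc_iff M κ' hcub).2 (i.Con.2 hL)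
  have hncon : ∀ L : AddSubgroup (ℤ × ℤ), ¬ (HT L).Con → Nonempty (G ≃g Hon L) → Kc G.lineGraph 3 ≠ 1 := by
    rintro L hL ⟨φ⟩ h
    obtain ⟨κ', hκ⟩ := uiso_of_iso hcub L φ
    obtain ⟨i⟩ := hκ M
    exact hL (i.Con.1 ((Kc_iff M κ' hcub).1 h))
  have hpc : ∀ L : AddSubgroup (ℤ × ℤ), (∀ (E : Type u) [Fintype E] (B : CB E), Nonempty (UIso B (HT L)) → B.PC) →
      Nonempty (G ≃g Hon L) → EvenFlips G := by
    rintro L hL ⟨φ⟩
    obtain ⟨κ', hκ⟩ := uiso_of_iso hcub L φ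
    exact (PC_iff M κ' hcub).1 (hL _ _ (hκ M))
  have hconK : ∀ k : ℕ, 2 ≤ k → Nonempty (G ≃g BGr (kf (2 * k) 2 0)) → Kc G.lineGraph 3 = 1 := by
    rintro k hk ⟨φ⟩
    obtain ⟨κ', hκ⟩ := uiso_of_isoB (kf (2 * k) 2 0) hcub φ
    obtain ⟨i⟩ := hκ M
    exact (Kc_iff M κ' hcub).2 (i.Con.2 (con_kb (2 * k) (by omega) (by omega) 0))
  have hK : Nonempty (G ≃g kleinGraph) → EvenFlips G ∧ Kc G.lineGraph 3 ≠ 1 := by
    rintro ⟨φ⟩
    rw [kleinGraph_eq] at φ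
    obtain ⟨κ', hκ⟩ := uiso_of_isoB (kf 2 2 0) hcub φ
    obtain ⟨i⟩ := hκ M
    exact ⟨(PC_iff M κ' hcub).1 (i.PC.2 kb_small.2), fun h => kb_small.1 (i.Con.1 ((Kc_iff M κ' hcub).1 h))⟩
  refine ⟨⟨fun h => ?_, fun h => ?_⟩, ⟨fun h => ?_, fun h => ?_⟩⟩
  · have hE : EvenFlips G := fun c c' => kc_necessary M κ hcub h c c'
    rcases nonneg_spc M κ hcub hG hχ h4 hE with ⟨L, hL, i⟩ | ⟨m, hm, hm2, i⟩
    · have hφ := iso_of_uiso M κ hcub L i
      rcases hL with hL | hL | hL | hL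
      · obtain ⟨s, k, hk, rfl⟩ := hL
        exact Or.inl ⟨s, k, hk, hφ⟩
      · subst hL
        exact Or.inr (Or.inl hφ)
      · subst hL
        exact absurd h (hncon _ ncon_T14 hφ)
      · subst hL
        exact absurd h (hncon _ ncon_T20 hφ)
    · have hφ := iso_of_uisoB (kf m 2 0) M κ hcub i
      obtain ⟨k, rfl⟩ : ∃ k, m = 2 * k := ⟨m / 2, by omega⟩
      by_cases hk : 2 ≤ k
      · exact Or.inr (Or.inr ⟨k, hk, hφ⟩)
      · obtain rfl : k = 1 := by omega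
        refine absurd h (hK ?_).2
        rw [kleinGraph_eq]
        exact hφ
  · rcases h with ⟨s, k, hk, h⟩ | h | ⟨k, hk, h⟩
    · exact hcon _ (con_IsTube _ ⟨s, k, hk, rfl⟩) h
    · exact hcon _ con_T32 h
    · exact hconK k hk h
  · obtain ⟨hE, hK'⟩ := h
    rcases nonneg_spc M κ hcub hG hχ h4 hE with ⟨L, hL, i⟩ | ⟨m, hm, hm2, i⟩
    · have hφ := iso_of_uiso M κ hcub L i
      rcases hL with hL | hL | hL | hL
      · exact absurd (hcon _ (con_IsTube _ hL) hφ) hK'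
      · subst hL
        exact absurd (hcon _ con_T32 hφ) hK'
      · subst hL
        exact Or.inl hφ
      · subst hL
        exact Or.inr (Or.inl hφ)
    · have hφ := iso_of_uisoB (kf m 2 0) M κ hcub i
      obtain ⟨k, rfl⟩ : ∃ k, m = 2 * k := ⟨m / 2, by omega⟩
      by_cases hk : 2 ≤ k
      · exact absurd (hconK k hk hφ) hK'
      · obtain rfl : k = 1 := by omega
        rw [kleinGraph_eq]
        exact Or.inr (Or.inr hφ)
  · rcases h with h | h | h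
    · exact ⟨hpc _ pc_T14 h, hncon _ ncon_T14 h⟩
    · exact ⟨hpc _ pc_T20 h, hncon _ ncon_T20 h⟩
    · exact hK h

end Pool.Agent.PP
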